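import Pool.Agent.H380DT.BDefs

set_option autoImplicit false

namespace Pool.Agent.H380DT

open MeasureTheory Topology

theorem Low.mono {m n : ℤ} {x : K} (hx : Low n x) (h : m ≤ n) : Low m x :=
  fun k hk => hx k (lt_of_lt_of_le hk h)

theorem Low.add {n : ℤ} {x y : K} (hx : Low n x) (hy : Low n y) : Low n (x + y) := by
  intro k hk
  rw [HahnSeries.coeff_add, hx k hk, hy k hk, add_zero]

theorem Low.mul {m n : ℤ} {x y : K} (hx : Low m x) (hy : Low n y) : Low (m + n) (x * y) := by
  intro k hk
  rw [HahnSeries.coeff_mul]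
  apply Finset.sum_eq_zero
  rintro ⟨i, j⟩ hij
  have h : i + j = k := (Finset.mem_antidiagonal.mp hij).2.2
  by_cases hi : i < m
  · simp only
    rw [hx i hi, zero_mul]
  · have hj : j < n := by omega
    simp only
    rw [hy j hj, mul_zero]

theorem exists_low (x : K) : ∃ n, Low n x :=
  ⟨x.order, fun _ hk => HahnSeries.coeff_eq_zero_of_lt_order hk⟩

theorem zmod2_ne_zero {a : ZMod 2} (h : a ≠ 0) : a = 1 := by
  revert a; decide

theorem exists_unit_form {l : K} (hl : l ≠ 0) :
    ∃ (k : ℤ) (u : K), l = (HahnSeries.single k (1 : ZMod 2) : K) * u ∧ Low 1 (u - 1) := by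
  refine ⟨l.order, (HahnSeries.single (-l.order) (1 : ZMod 2) : K) * l, ?_, ?_⟩
  · rw [← mul_assoc, HahnSeries.single_mul_single]
    simp
  · intro k hk
    have h1 : ((HahnSeries.single (-l.order) (1 : ZMod 2) : K) * l).coeff k =
        l.coeff (k + l.order) := by
      have := @HahnSeries.coeff_single_mul_add ℤ (ZMod 2) _ _ _ _ (1 : ZMod 2) l
        (k + l.order) (-l.order)
      rw [one_mul] at this
      rw [← this]
      congr 1
      ring
    rw [HahnSeries.coeff_sub, h1]
    rcases lt_or_eq_of_le (show k ≤ 0 by omega) with h | h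
    · rw [HahnSeries.coeff_eq_zero_of_lt_order (by omega), HahnSeries.coeff_one, if_neg (by omega)]
      simp
    · subst h
      have h2 : l.coeff l.order ≠ 0 := HahnSeries.coeff_order_eq_zero.not.mpr hl
      rw [zero_add, zmod2_ne_zero h2, HahnSeries.coeff_one, if_pos rfl]
      simp

instance : CharP K 2 := by
  have : Function.Injective (algebraMap (ZMod 2) K) := (algebraMap (ZMod 2) K).injective
  exact charP_of_injective_algebraMap this 2

theorem Low.pow {x : K} (hx : Low 1 x) (n : ℕ) : Low n (x ^ n) := by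
  induction n with
  | zero =>
    intro k hk
    rw [pow_zero, HahnSeries.coeff_one, if_neg (by push_cast at hk; omega)]
  | succ n ih =>
    rw [pow_succ]
    have := ih.mul hx
    push_cast
    exact this

theorem low_pow_sub_one {u : K} (hu : Low 1 (u - 1)) (m : ℕ) :
    Low (2 ^ m) (u ^ (2 ^ m) - 1) := by
  have h : u ^ (2 ^ m) - 1 = (u - 1) ^ (2 ^ m) := by
    rw [sub_pow_char_pow, one_pow]
  rw [h]
  have := hu.pow (2 ^ m)
  push_cast at this
  exact this

open PowerSeries in
theorem coeff_sq_two (z : PowerSeries (ZMod 2)) (n : ℕ) :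
    PowerSeries.coeff n (z ^ 2) = if 2 ∣ n then PowerSeries.coeff (n / 2) z else 0 := by
  rw [sq, PowerSeries.coeff_mul_eq_coeff_trunc_mul_trunc z z (Nat.lt_succ_self n), ← sq,
    ← Polynomial.coe_pow, Polynomial.coeff_coe, ← ZMod.expand_card, Polynomial.coeff_expand (by norm_num)]
  split_ifs with h
  · rw [PowerSeries.coeff_trunc, if_pos]
    omega
  · rfl

/-- The solution of `z ^ 2 + z = e`. -/
def asz (e : ℕ → ZMod 2) : ℕ → ZMod 2
  | 0 => 0
  | n + 1 => e (n + 1) + if 2 ∣ (n + 1) then asz e ((n + 1) / 2) else 0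
decreasing_by omega

theorem asz_succ (e : ℕ → ZMod 2) {n : ℕ} (hn : n ≠ 0) :
    asz e n = e n + if 2 ∣ n then asz e (n / 2) else 0 := by
  obtain ⟨m, rfl⟩ := Nat.exists_eq_succ_of_ne_zero hn
  rw [Nat.succ_eq_add_one, asz]

theorem exists_artin_schreier {e : K} (he : Low 1 e) : ∃ z : K, Low 1 z ∧ z ^ 2 + z = e := by
  let Z : PowerSeries (ZMod 2) := PowerSeries.mk (asz fun n => e.coeff n)
  have hZ : ∀ n, PowerSeries.coeff n Z = asz (fun n => e.coeff n) n := fun n =>
    PowerSeries.coeff_mk _ _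
  have hneg : ∀ (P : PowerSeries (ZMod 2)) (n : ℤ), n < 0 → (P : K).coeff n = 0 := by
    intro P n hn
    rw [PowerSeries.coeff_coe, if_pos hn]
  refine ⟨(Z : K), ?_, ?_⟩
  · intro n hn
    rcases lt_or_eq_of_le (show n ≤ 0 by omega) with h | h
    · exact hneg _ _ h
    · subst h
      have := LaurentSeries.coeff_coe_powerSeries Z 0
      rw [Nat.cast_zero] at this
      rw [this, hZ, asz]
  · rw [← PowerSeries.coe_pow, ← PowerSeries.coe_add]
    ext n
    rcases lt_or_ge n 0 with h | h
    · rw [hneg _ _ h, he n (by omega)]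
    · obtain ⟨m, rfl⟩ := Int.eq_ofNat_of_zero_le h
      rw [LaurentSeries.coeff_coe_powerSeries, map_add, coeff_sq_two, hZ, hZ]
      rcases Nat.eq_zero_or_pos m with h0 | h0
      · subst h0
        rw [if_pos (by norm_num), Nat.zero_div, asz, add_zero, Nat.cast_zero, he 0 (by norm_num)]
      · rw [asz_succ _ h0.ne']
        have h2 : ∀ a b : ZMod 2, a + (b + a) = b := by decide
        exact h2 _ _

theorem order_inv' {x : K} (hx : x ≠ 0) : (x⁻¹).order = -x.order := by
  have h := HahnSeries.order_mul hx (inv_ne_zero hx)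
  rw [mul_inv_cancel₀ hx, HahnSeries.order_one] at h
  omega

theorem alg_dichotomy (M : Matrix (Fin 2) (Fin 2) K) (hdet : M.det = 1)
    (hP : ∀ i j, Pol (M i j)) :
    M ^ 6 = 1 ∨ ((M - 1).det ≠ 0 ∧ ∃ (l : K) (a r : Fin 2 → K), l ≠ 0 ∧ Low 1 l⁻¹ ∧
      a ≠ 0 ∧ r ≠ 0 ∧ M.mulVec a = l • a ∧ M.mulVec r = l⁻¹ • r) := by
  have c2 : ∀ x : K, x + x = 0 := fun x => CharTwo.add_self_eq_zero x
  have hneg : ∀ x : K, -x = x := fun x => CharTwo.neg_eq x
  have hd : M 0 0 * M 1 1 - M 0 1 * M 1 0 = 1 := by rw [← hdet, Matrix.det_fin_two]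
  set tau : K := M 0 0 + M 1 1 with htau
  -- Cayley-Hamilton
  have hCH : M ^ 2 = tau • M + 1 := by
    have e1 : M 0 1 * M 1 0 = M 0 0 * M 1 1 - 1 := by linear_combination -hd
    rw [sq]
    apply Matrix.ext
    intro i j
    fin_cases i <;> fin_cases j <;>
      simp [Matrix.mul_apply, Fin.sum_univ_two]
    · linear_combination e1 - c2 1
    · rw [htau]; ring
    · rw [htau]; ring
    · linear_combination e1 - c2 1
  by_cases hc : ∀ n < 0, tau.coeff n = 0
  · left
    have htc : tau = HahnSeries.C (tau.coeff 0) := by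
      ext n
      rw [HahnSeries.C_apply, HahnSeries.coeff_single]
      split_ifs with h
      · rw [h]
      · rcases lt_or_gt_of_ne h with h | h
        · exact hc n h
        · rw [htau, HahnSeries.coeff_add, hP 0 0 n h, hP 1 1 n h, add_zero]
    rcases (show ∀ a : ZMod 2, a = 0 ∨ a = 1 by decide) (tau.coeff 0) with h | h
    · rw [h, map_zero] at htc
      rw [htc, zero_smul, zero_add] at hCH
      rw [show (6 : ℕ) = 2 * 3 from rfl, pow_mul, hCH, one_pow]
    · rw [h, map_one] at htc
      rw [htc, one_smul] at hCH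
      have h3 : M ^ 3 = 1 := by
        have : M ^ 3 = M ^ 2 * M := by rw [← pow_succ]
        rw [this, hCH, add_mul, one_mul, ← sq, hCH]
        have h4 : M + M = 0 := by
          ext i j
          simp [c2]
        calc M + 1 + M = (M + M) + 1 := by abel
          _ = 1 := by rw [h4, zero_add]
      rw [show (6 : ℕ) = 3 * 2 from rfl, pow_mul, h3, one_pow]
  · right
    push Not at hc
    obtain ⟨n0, hn0, hn1⟩ := hc
    have ht0 : tau ≠ 0 := by
      intro h
      rw [h] at hn1
      exact hn1 rfl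
    have hto : tau.order ≤ -1 := by
      have := HahnSeries.order_le_of_coeff_ne_zero hn1
      omega
    have hdet1 : (M - 1).det = tau := by
      rw [Matrix.det_fin_two]
      simp only [Matrix.sub_apply, Matrix.one_apply]
      simp
      linear_combination hd + c2 1 - c2 tau
    refine ⟨by rw [hdet1]; exact ht0, ?_⟩
    have hti : Low 1 tau⁻¹ := by
      intro k hk
      apply HahnSeries.coeff_eq_zero_of_lt_order
      rw [order_inv' ht0]
      omega
    have hte : Low 1 (tau⁻¹ ^ 2) := (hti.pow 2).mono (by norm_num)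
    obtain ⟨z, hz, hze⟩ := exists_artin_schreier hte
    have hz1 : (1 + z).coeff 0 = 1 := by
      rw [HahnSeries.coeff_add, hz 0 (by norm_num), HahnSeries.coeff_one, if_pos rfl, add_zero]
    have hz0 : 1 + z ≠ 0 := by
      intro h
      rw [h] at hz1
      exact absurd hz1 (by decide)
    have hord1 : (1 + z).order ≤ 0 :=
      HahnSeries.order_le_of_coeff_ne_zero (by rw [hz1]; decide)
    set l : K := tau * (1 + z) with hl
    have hl0 : l ≠ 0 := mul_ne_zero ht0 hz0
    have hlo : l.order ≤ -1 := by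
      rw [hl, HahnSeries.order_mul ht0 hz0]
      omega
    have hroot : l * l + tau * l + 1 = 0 := by
      have h1 : tau * tau⁻¹ = 1 := mul_inv_cancel₀ ht0
      have h2 : tau ^ 2 * (z ^ 2 + z) = 1 := by
        rw [hze, ← mul_pow, h1, one_pow]
      rw [hl]
      linear_combination h2 + tau ^ 2 * (c2 1) + tau ^ 2 * c2 z + c2 1
    have hlinv : l⁻¹ = l + tau := by
      have : l * (l + tau) = 1 := by linear_combination hroot - c2 1
      exact inv_eq_of_mul_eq_one_right this
    have eig : ∀ x : K, x * x + tau * x + 1 = 0 → ∃ a : Fin 2 → K, a ≠ 0 ∧ M.mulVec a = x • a := by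
      intro x hx
      have h1 : (M - x • (1 : Matrix (Fin 2) (Fin 2) K)).det = 0 := by
        rw [Matrix.det_fin_two]
        simp
        linear_combination hd + hx - c2 (tau * x)
      obtain ⟨a, ha, hMa⟩ := Matrix.exists_mulVec_eq_zero_iff.mpr h1
      refine ⟨a, ha, ?_⟩
      rw [Matrix.sub_mulVec, Matrix.smul_mulVec, Matrix.one_mulVec, sub_eq_zero] at hMa
      exact hMa
    obtain ⟨a, ha, hMa⟩ := eig l hroot
    obtain ⟨r, hr, hMr⟩ := eig l⁻¹ (by
      rw [hlinv]
      linear_combination hroot + c2 (tau * l) + c2 (tau * tau) - c2 (tau * tau) + c2 (tau ^ 2))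
    refine ⟨l, a, r, hl0, ?_, ha, hr, hMa, hMr⟩
    intro k hk
    apply HahnSeries.coeff_eq_zero_of_lt_order
    rw [order_inv' hl0]
    omega

end Pool.Agent.H380DT
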