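import Pool.Agent.H380DT.BDefs

set_option autoImplicit false

namespace Pool.Agent.H380DT

open MeasureTheory Topology

namespace Code

section
variable {D A : Type*} [AddCommGroup D] (C : Code D A) (N : D →+ D)

omit [AddCommGroup D] in
theorem isCell_unique {w : ℕ → A} {p : ℕ} {d e : D} (h1 : C.IsCell w p d)
    (h2 : C.IsCell w p e) : d = e :=
  C.inj d e fun i hi => (h1 i hi).symm.trans (h2 i hi)

omit [AddCommGroup D] in
theorem isCell_disjoint {w : ℕ → A} {p q : ℕ} {d e : D} (h1 : C.IsCell w p d)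
    (h2 : C.IsCell w q e) (hpq : p < q) : p + C.L ≤ q := by
  by_contra hc
  obtain ⟨i, hi, hne⟩ := C.nov d e (q - p) (by omega) (by omega)
  apply hne
  have a := h1 (i + (q - p)) hi
  have b := h2 i (by omega)
  rw [← a, ← b]
  congr 1
  omega

omit [AddCommGroup D] in
theorem isCell_at {w : ℕ → A} {p q i : ℕ} {d e : D} (h1 : C.IsCell w p d)
    (h2 : C.IsCell w q e) (hp : p ≤ i) (hp' : i < p + C.L) (hq : q ≤ i) (hq' : i < q + C.L) :
    p = q := by
  rcases lt_trichotomy p q with h | h | h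
  · have := C.isCell_disjoint h1 h2 h
    omega
  · exact h
  · have := C.isCell_disjoint h2 h1 h
    omega

theorem phi_in {w : ℕ → A} {p i : ℕ} {d e : D} (h1 : C.IsCell w p d)
    (h2 : C.IsCell w (p + C.L) e) (hi : p ≤ i) (hi' : i < p + C.L) :
    C.phi N w i = C.cell (d + N e) (i - p) := by
  have h : ∃ p d e, p ≤ i ∧ i < p + C.L ∧ C.IsCell w p d ∧ C.IsCell w (p + C.L) e :=
    ⟨p, d, e, hi, hi', h1, h2⟩
  have e1 : C.phi N w i = C.cell (h.choose_spec.choose +
      N h.choose_spec.choose_spec.choose) (i - h.choose) := by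
    unfold phi
    rw [dif_pos h]
  rw [e1]
  have key : ∀ (p' : ℕ) (d' e' : D), (p' ≤ i ∧ i < p' + C.L ∧ C.IsCell w p' d' ∧
      C.IsCell w (p' + C.L) e') → C.cell (d' + N e') (i - p') = C.cell (d + N e) (i - p) := by
    rintro p' d' e' ⟨a1, a2, a3, a4⟩
    have hp : p' = p := C.isCell_at a3 h1 a1 a2 hi hi'
    subst hp
    rw [C.isCell_unique a3 h1, C.isCell_unique a4 h2]
  exact key _ _ _ h.choose_spec.choose_spec.choose_spec

theorem phi_out {w : ℕ → A} {i : ℕ}
    (h : ∀ p d e, p ≤ i → i < p + C.L → C.IsCell w p d → ¬ C.IsCell w (p + C.L) e) :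
    C.phi N w i = w i := by
  unfold phi
  rw [dif_neg]
  rintro ⟨p, d, e, h1, h2, h3, h4⟩
  exact h p d e h1 h2 h3 h4

theorem phi_cell {w : ℕ → A} {p : ℕ} {d e : D} (h1 : C.IsCell w p d)
    (h2 : C.IsCell w (p + C.L) e) : C.IsCell (C.phi N w) p (d + N e) := by
  intro i hi
  rw [C.phi_in N h1 h2 (by omega) (by omega)]
  congr 1
  omega

theorem phi_cell' {w : ℕ → A} {p : ℕ} {d : D} (h1 : C.IsCell w p d)
    (h2 : ∀ e, ¬ C.IsCell w (p + C.L) e) : C.IsCell (C.phi N w) p d := by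
  intro i hi
  rw [C.phi_out N]
  · exact h1 i hi
  · intro p' d' e' a1 a2 a3 a4
    have hp : p' = p := C.isCell_at a3 h1 a1 a2 (by omega) (by omega)
    subst hp
    exact h2 e' a4

theorem phi_isCell {w : ℕ → A} {p : ℕ} {d : D} (h : C.IsCell w p d) :
    ∃ d', C.IsCell (C.phi N w) p d' := by
  by_cases h2 : ∃ e, C.IsCell w (p + C.L) e
  · obtain ⟨e, he⟩ := h2
    exact ⟨_, C.phi_cell N h he⟩
  · push Not at h2
    exact ⟨_, C.phi_cell' N h h2⟩

theorem phi_isCell_iff {w : ℕ → A} {p : ℕ} :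
    (∃ d, C.IsCell (C.phi N w) p d) ↔ ∃ d, C.IsCell w p d := by
  constructor
  · rintro ⟨d, hd⟩
    by_cases h : ∃ i q d' e', p ≤ i ∧ i < p + C.L ∧ q ≤ i ∧ i < q + C.L ∧
        C.IsCell w q d' ∧ C.IsCell w (q + C.L) e'
    · obtain ⟨i, q, d', e', a1, a2, a3, a4, a5, a6⟩ := h
      have := C.isCell_at hd (C.phi_cell N a5 a6) a1 a2 a3 a4
      subst this
      exact ⟨d', a5⟩
    · refine ⟨d, fun i hi => ?_⟩
      rw [← hd i hi]
      symm
      apply C.phi_out N
      intro q d' e' a1 a2 a3 a4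
      exact h ⟨p + i, q, d', e', by omega, by omega, a1, a2, a3, a4⟩
  · rintro ⟨d, hd⟩
    exact C.phi_isCell N hd

theorem phi_phi (h2 : ∀ d : D, d + d = 0) (hN : ∀ d, N (N d) = 0) (w : ℕ → A) :
    C.phi N (C.phi N w) = w := by
  funext i
  by_cases h : ∃ p d e, p ≤ i ∧ i < p + C.L ∧ C.IsCell w p d ∧ C.IsCell w (p + C.L) e
  · obtain ⟨p, d, e, a1, a2, a3, a4⟩ := h
    have b1 := C.phi_cell N a3 a4
    have b2 : ∃ e', C.IsCell (C.phi N w) (p + C.L) e' ∧ N e' = N e := by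
      by_cases h3 : ∃ e'', C.IsCell w (p + C.L + C.L) e''
      · obtain ⟨e'', he⟩ := h3
        exact ⟨_, C.phi_cell N a4 he, by rw [map_add, hN, add_zero]⟩
      · push Not at h3
        exact ⟨_, C.phi_cell' N a4 h3, rfl⟩
    obtain ⟨e', b2, b3⟩ := b2
    rw [C.phi_in N b1 b2 a1 a2, b3, add_assoc, h2, add_zero, ← a3 (i - p) (by omega)]
    congr 1
    omega
  · rw [C.phi_out N, C.phi_out N]
    · intro p d e a1 a2 a3 a4
      exact h ⟨p, d, e, a1, a2, a3, a4⟩
    · intro p d e a1 a2 a3 a4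
      obtain ⟨d', hd'⟩ := (C.phi_isCell_iff N).1 ⟨d, a3⟩
      obtain ⟨e', he'⟩ := (C.phi_isCell_iff N).1 ⟨e, a4⟩
      exact h ⟨p, d', e', a1, a2, hd', he'⟩

omit [AddCommGroup D] in
theorem isCell_sh {w : ℕ → A} {n p : ℕ} {d : D} :
    C.IsCell (sh n w) p d ↔ C.IsCell w (n + p) d := by
  unfold IsCell
  simp only [sh_apply, Nat.add_assoc]

theorem phi_sh {w : ℕ → A} {n : ℕ} (h : C.Cut w n) :
    sh n (C.phi N w) = C.phi N (sh n w) := by
  funext i
  rw [sh_apply]
  by_cases hc : ∃ p d e, p ≤ n + i ∧ n + i < p + C.L ∧ C.IsCell w p d ∧ C.IsCell w (p + C.L) e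
  · obtain ⟨p, d, e, a1, a2, a3, a4⟩ := hc
    have hp : n ≤ p := by
      by_contra hp
      have := h p d a3 (by omega)
      omega
    obtain ⟨q, rfl⟩ := Nat.exists_eq_add_of_le hp
    have b3 : C.IsCell (sh n w) q d := C.isCell_sh.2 a3
    have b4 : C.IsCell (sh n w) (q + C.L) e := C.isCell_sh.2 (by rwa [← Nat.add_assoc])
    rw [C.phi_in N a3 a4 a1 a2, C.phi_in N b3 b4 (by omega) (by omega)]
    congr 1
    omega
  · rw [C.phi_out N, C.phi_out N]
    · rfl
    · intro p d e a1 a2 a3 a4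
      rw [isCell_sh] at a3 a4
      exact hc ⟨n + p, d, e, by omega, by omega, a3, by rwa [Nat.add_assoc]⟩
    · intro p d e a1 a2 a3 a4
      exact hc ⟨p, d, e, a1, a2, a3, a4⟩

omit [AddCommGroup D] in
theorem isCell_congr {w z : ℕ → A} {p : ℕ} {d : D} (h : ∀ j < p + C.L, w j = z j) :
    C.IsCell w p d ↔ C.IsCell z p d := by
  unfold IsCell
  constructor
  · intro h1 i hi
    rw [← h (p + i) (by omega)]
    exact h1 i hi
  · intro h1 i hi
    rw [h (p + i) (by omega)]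
    exact h1 i hi

theorem phi_congr {w z : ℕ → A} {i : ℕ} (h : ∀ j < i + 2 * C.L, w j = z j) :
    C.phi N w i = C.phi N z i := by
  have hL := C.hL
  by_cases hc : ∃ p d e, p ≤ i ∧ i < p + C.L ∧ C.IsCell w p d ∧ C.IsCell w (p + C.L) e
  · obtain ⟨p, d, e, a1, a2, a3, a4⟩ := hc
    rw [C.phi_in N a3 a4 a1 a2]
    rw [C.isCell_congr (z := z) fun j hj => h j (by omega)] at a3 a4
    rw [C.phi_in N a3 a4 a1 a2]
  · rw [C.phi_out N, C.phi_out N]
    · exact h i (by omega)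
    · intro p d e a1 a2 a3 a4
      rw [← C.isCell_congr (w := w) fun j hj => h j (by omega)] at a3 a4
      exact hc ⟨p, d, e, a1, a2, a3, a4⟩
    · intro p d e a1 a2 a3 a4
      exact hc ⟨p, d, e, a1, a2, a3, a4⟩

theorem continuous_phi [TopologicalSpace A] [DiscreteTopology A] : Continuous (C.phi N) := by
  refine continuous_pi fun i => continuous_iff_continuousAt.2 fun w => ?_
  have h := eventually_agree w (i + 2 * C.L)
  refine Filter.Tendsto.congr' ?_ (tendsto_const_nhds (x := C.phi N w i))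
  filter_upwards [h] with z hz
  exact (C.phi_congr N hz).symm

end

end Code

end Pool.Agent.H380DT
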