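import Pool.Agent.H380DT.BDefs

set_option autoImplicit false

namespace Pool.Agent.H380DT

open MeasureTheory Topology

theorem exists_isOrd {v : Fin 3 → K} (hv : v ≠ 0) : ∃ m, IsOrd v m := by
  have h1 : ∃ i, v i ≠ 0 := by
    by_contra h
    push Not at h
    exact hv (funext h)
  obtain ⟨i, hi⟩ := h1
  have h2 : ∃ n : ℤ, cv v n ≠ 0 := by
    refine ⟨(v i).order, fun h => ?_⟩
    have := congrFun h i
    exact hi (HahnSeries.coeff_order_eq_zero.mp this)
  have h3 : ∃ b : ℤ, ∀ z : ℤ, cv v z ≠ 0 → b ≤ z := by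
    refine ⟨min (v 0).order (min (v 1).order (v 2).order), fun z hz => ?_⟩
    by_contra hc
    push Not at hc
    rw [lt_min_iff, lt_min_iff] at hc
    apply hz
    funext j
    fin_cases j
    · exact HahnSeries.coeff_eq_zero_of_lt_order hc.1
    · exact HahnSeries.coeff_eq_zero_of_lt_order hc.2.1
    · exact HahnSeries.coeff_eq_zero_of_lt_order hc.2.2
  obtain ⟨b, hb⟩ := h3
  obtain ⟨m, hm, hmin⟩ := Int.exists_least_of_bdd ⟨b, hb⟩ h2
  refine ⟨m, hm, fun n hn => ?_⟩
  by_contra hc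
  have := hmin n hc
  omega

theorem IsOrd.unique {v : Fin 3 → K} {m n : ℤ} (h1 : IsOrd v m) (h2 : IsOrd v n) : m = n := by
  rcases lt_trichotomy m n with h | h | h
  · exact absurd (h2.2 m h) h1.1
  · exact h
  · exact absurd (h1.2 n h) h2.1

theorem nrm_eq {v : Fin 3 → K} {m : ℤ} (h : IsOrd v m) : nrm v = fun n : ℕ => cv v (m + n) := by
  have hc : ∃ m, IsOrd v m := ⟨m, h⟩
  have h1 : hc.choose = m := IsOrd.unique hc.choose_spec h
  unfold nrm
  rw [dif_pos hc, h1]

theorem nrm_zero_ne {v : Fin 3 → K} (hv : v ≠ 0) : nrm v 0 ≠ 0 := by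
  obtain ⟨m, hm⟩ := exists_isOrd hv
  rw [nrm_eq hm]
  simpa using hm.1

theorem coeff_TT_mul (x : K) (n : ℤ) : (TT * x).coeff n = x.coeff (n + 1) := by
  unfold TT
  have := @HahnSeries.coeff_single_mul_add ℤ (ZMod 2) _ _ _ _ (1 : ZMod 2) x (n + 1) (-1)
  rw [one_mul] at this
  rw [← this]
  congr 1
  ring

theorem coeff_algebraMap_mul (c : ZMod 2) (x : K) (n : ℤ) :
    (algebraMap (ZMod 2) K c * x).coeff n = c * x.coeff n := by
  rcases (show c = 0 ∨ c = 1 by revert c; decide) with rfl | rfl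
  · simp
  · simp

theorem cv_TN (N : Matrix (Fin 3) (Fin 3) (ZMod 2)) (v : Fin 3 → K) (n : ℤ) :
    cv (TN N v) n = cv v n + Nmap N (cv v (n + 1)) := by
  funext i
  show (v i + TT * ((N.map (algebraMap (ZMod 2) K)).mulVec v) i).coeff n = _
  rw [HahnSeries.coeff_add, coeff_TT_mul]
  show _ = (v i).coeff n + N.mulVec (cv v (n + 1)) i
  congr 1
  simp only [Matrix.mulVec, dotProduct, Fin.sum_univ_three, Matrix.map_apply,
    HahnSeries.coeff_add, coeff_algebraMap_mul]
  rfl

theorem nrm_TN (N : Matrix (Fin 3) (Fin 3) (ZMod 2)) (hN : N * N = 0) {v : Fin 3 → K}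
    (hv : v ≠ 0) : nrm (TN N v) = hs (Nmap N) (nrm v) := by
  obtain ⟨m, hm⟩ := exists_isOrd hv
  have hs0 : ∀ n : ℕ, nrm v n = cv v (m + n) := fun n => by rw [nrm_eq hm]
  have hNN : ∀ d, Nmap N (Nmap N d) = 0 := by
    intro d
    show N.mulVec (N.mulVec d) = 0
    rw [Matrix.mulVec_mulVec, hN, Matrix.zero_mulVec]
  have hphs : ∀ n : ℕ, phs (Nmap N) (nrm v) n = cv (TN N v) (m + n) := by
    intro n
    unfold phs
    rw [cv_TN, hs0, hs0]
    push_cast
    rw [add_assoc]
  unfold hs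
  split_ifs with h1 h2
  · rw [hs0 0, Nat.cast_zero, add_zero] at h1
    have ho : IsOrd (TN N v) (m - 1) := by
      refine ⟨?_, fun n hn => ?_⟩
      · rw [cv_TN, hm.2 (m - 1) (by omega), zero_add, sub_add_cancel]
        exact h1
      · rw [cv_TN, hm.2 n (by omega), hm.2 (n + 1) (by omega), map_zero, add_zero]
    rw [nrm_eq ho]
    funext n
    cases n with
    | zero =>
      rw [cons_zero, cv_TN, hs0 0]
      simp only [Nat.cast_zero, add_zero]
      rw [hm.2 (m - 1) (by omega), zero_add, sub_add_cancel]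
    | succ n =>
      rw [cons_succ, hphs]
      congr 1
      push_cast
      ring
  · rw [hs0 0, Nat.cast_zero, add_zero, not_not] at h1
    rw [hphs 0, Nat.cast_zero, add_zero] at h2
    have ho : IsOrd (TN N v) m := by
      refine ⟨h2, fun n hn => ?_⟩
      rw [cv_TN, hm.2 n hn, zero_add]
      rcases lt_or_eq_of_le (show n + 1 ≤ m by omega) with h | h
      · rw [hm.2 _ h, map_zero]
      · rw [h, h1]
    rw [nrm_eq ho]
    funext n
    rw [hphs]
  · rw [hs0 0, Nat.cast_zero, add_zero, not_not] at h1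
    rw [hphs 0, Nat.cast_zero, add_zero, not_not] at h2
    have ho : IsOrd (TN N v) (m + 1) := by
      refine ⟨fun h => ?_, fun n hn => ?_⟩
      · rw [cv_TN] at h h2
        have h3 := congrArg (Nmap N) h
        rw [map_add, hNN, add_zero, map_zero] at h3
        rw [h3, add_zero] at h2
        exact hm.1 h2
      · rcases lt_or_eq_of_le (show n ≤ m by omega) with h | h
        · rw [cv_TN, hm.2 n h, zero_add]
          rcases lt_or_eq_of_le (show n + 1 ≤ m by omega) with h' | h'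
          · rw [hm.2 _ h', map_zero]
          · rw [h', h1]
        · rw [h, h2]
    rw [nrm_eq ho]
    funext n
    rw [sh_apply, hphs]
    congr 1
    push_cast
    ring

theorem cv_single_smul (k : ℤ) (v : Fin 3 → K) (n : ℤ) :
    cv ((HahnSeries.single k (1 : ZMod 2) : K) • v) n = cv v (n - k) := by
  funext i
  show ((HahnSeries.single k (1 : ZMod 2) : K) * v i).coeff n = (v i).coeff (n - k)
  have := @HahnSeries.coeff_single_mul_add ℤ (ZMod 2) _ _ _ _ (1 : ZMod 2) (v i) (n - k) k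
  rw [one_mul, sub_add_cancel] at this
  exact this

theorem nrm_single_smul (k : ℤ) (v : Fin 3 → K) :
    nrm ((HahnSeries.single k (1 : ZMod 2) : K) • v) = nrm v := by
  by_cases hv : v = 0
  · rw [hv, smul_zero]
  · obtain ⟨m, hm⟩ := exists_isOrd hv
    have ho : IsOrd ((HahnSeries.single k (1 : ZMod 2) : K) • v) (m + k) := by
      refine ⟨?_, fun n hn => ?_⟩
      · rw [cv_single_smul, add_sub_cancel_right]
        exact hm.1
      · rw [cv_single_smul]
        exact hm.2 _ (by omega)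
    rw [nrm_eq ho, nrm_eq hm]
    funext n
    rw [cv_single_smul]
    congr 1
    ring

theorem exists_cylinder' {A : Type*} [TopologicalSpace A] {w : ℕ → A} {P : (ℕ → A) → Prop}
    (h : ∀ᶠ z in 𝓝 w, P z) : ∃ n, ∀ z, (∀ i < n, z i = w i) → P z := by
  rw [Filter.eventually_iff, nhds_pi, Filter.mem_pi] at h
  obtain ⟨I, hI, t, ht, hsub⟩ := h
  obtain ⟨n, hn⟩ := hI.bddAbove
  refine ⟨n + 1, fun z hz => hsub ?_⟩
  intro i hi
  have := hz i (Nat.lt_succ_of_le (hn hi))
  show z i ∈ t i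
  rw [this]
  exact mem_of_mem_nhds (ht i)

theorem ev_near {ι A : Type*} [TopologicalSpace ι] [TopologicalSpace A] (C : Code D3 A) (i0 : ι)
    {v : Fin 3 → K} (hv : v ≠ 0) {U : Set (ι × (ℕ → A))} (hU : U ∈ 𝓝 (ev C i0 v)) :
    ∃ n : ℤ, ∀ w : Fin 3 → K, (∀ i, Low n (w i - v i)) → ev C i0 w ∈ U := by
  obtain ⟨m, hm⟩ := exists_isOrd hv
  have h1 : ∀ᶠ z in 𝓝 (C.cells (nrm v)), (i0, z) ∈ U := by
    have : ContinuousAt (fun z : ℕ → A => (i0, z)) (C.cells (nrm v)) := by fun_prop
    exact this hU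
  obtain ⟨n0, hn0⟩ := exists_cylinder' h1
  refine ⟨m + 1 + n0, fun w hw => hn0 _ fun i hi => ?_⟩
  have h2 : ∀ k < m + 1 + n0, cv w k = cv v k := by
    intro k hk
    funext j
    have := hw j k hk
    rw [HahnSeries.coeff_sub, sub_eq_zero] at this
    exact this
  have ho : IsOrd w m := by
    refine ⟨?_, fun n hn => ?_⟩
    · rw [h2 m (by omega)]
      exact hm.1
    · rw [h2 n (by omega)]
      exact hm.2 n hn
  have hdiv : i / C.L ≤ i := Nat.div_le_self _ _
  unfold Code.cells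
  rw [nrm_eq ho, nrm_eq hm]
  show C.cell (cv w (m + ((i / C.L : ℕ) : ℤ))) _ = C.cell (cv v (m + ((i / C.L : ℕ) : ℤ))) _
  rw [h2 _ (by omega)]

theorem isClosed_fin {A : Type*} [TopologicalSpace A] [DiscreteTopology A]
    {P : (ℕ → A) → Prop} (n : ℕ) (h : ∀ w z : ℕ → A, (∀ i < n, z i = w i) → P z → P w) :
    IsClosed {w | P w} := by
  rw [← isOpen_compl_iff, isOpen_iff_mem_nhds]
  intro w hw
  filter_upwards [eventually_agree w n] with z hz
  intro hPz
  exact hw (h w z hz hPz)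

theorem isClosed_EB {ι A : Type*} [TopologicalSpace ι] [DiscreteTopology ι] [TopologicalSpace A]
    [DiscreteTopology A] (C : Code D3 A) (i0 : ι) : IsClosed (EB C i0) := by
  have hL := C.hL
  have h1 : EB C i0 = {x | x.1 = i0} ∩ ((Prod.snd ⁻¹' {w | ∃ d, d ≠ 0 ∧ C.IsCell w 0 d}) ∩
      ⋂ n : ℕ, Prod.snd ⁻¹' {w | ∃ d, C.IsCell w (n * C.L) d}) := by
    ext ⟨i, w⟩
    simp only [EB, Set.mem_ofPred_eq, Set.mem_inter_iff, Set.mem_preimage, Set.mem_iInter]
    constructor
    · rintro ⟨s, hs, heq⟩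
      rw [Prod.mk.injEq] at heq
      obtain ⟨rfl, rfl⟩ := heq
      have hc : ∀ n, C.IsCell (C.cells s) (n * C.L) (s n) := by
        intro n i hi
        unfold Code.cells
        have h1 : (n * C.L + i) / C.L = n := by
          rw [Nat.mul_comm, Nat.mul_add_div hL, Nat.div_eq_of_lt hi, add_zero]
        have h2 : (n * C.L + i) % C.L = i := by
          rw [Nat.mul_comm, Nat.mul_add_mod, Nat.mod_eq_of_lt hi]
        rw [h1, h2]
      refine ⟨rfl, ⟨s 0, hs, ?_⟩, fun n => ⟨s n, hc n⟩⟩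
      have := hc 0
      rwa [zero_mul] at this
    · rintro ⟨rfl, ⟨d, hd, hd'⟩, h⟩
      choose s hs using h
      have h0 : s 0 = d := by
        have := hs 0
        rw [zero_mul] at this
        exact C.inj _ _ fun i hi => (this i hi).symm.trans (hd' i hi)
      refine ⟨s, by rw [h0]; exact hd, ?_⟩
      congr 1
      funext i
      unfold Code.cells
      have h3 : i / C.L * C.L + i % C.L = i := by
        rw [Nat.mul_comm]
        exact Nat.div_add_mod i C.L
      rw [← hs (i / C.L) (i % C.L) (Nat.mod_lt i hL), h3]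
  rw [h1]
  refine IsClosed.inter ?_ (IsClosed.inter ?_ (isClosed_iInter fun n => ?_))
  · exact (isClosed_discrete {i0}).preimage continuous_fst
  · refine (isClosed_fin C.L ?_).preimage continuous_snd
    rintro w z hz ⟨d, hd, hd'⟩
    refine ⟨d, hd, fun i hi => ?_⟩
    rw [← hz (0 + i) (by omega)]
    exact hd' i hi
  · refine (isClosed_fin (n * C.L + C.L) ?_).preimage continuous_snd
    rintro w z hz ⟨d, hd'⟩
    refine ⟨d, fun i hi => ?_⟩
    rw [← hz (n * C.L + i) (by omega)]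
    exact hd' i hi

end Pool.Agent.H380DT
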