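import Pool.Agent.H380DT.BDefs

set_option autoImplicit false
set_option linter.unusedSectionVars false

namespace Pool.Agent.H380DT

open MeasureTheory Topology

theorem pre_app {A : Type*} (l : List A) (w : ℕ → A) : pre l.length (app l w) = l := by
  induction l with
  | nil => rfl
  | cons a l ih =>
    rw [List.length_cons, pre_succ, app_cons, sh_one_cons, ih]
    rfl

theorem sh_app_drop {A : Type*} (l : List A) (w : ℕ → A) {n : ℕ} (h : n ≤ l.length) :
    sh n (app l w) = app (l.drop n) w := by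
  conv_lhs => rw [← List.take_append_drop n l, app_append]
  have h1 : (l.take n).length = n := by rw [List.length_take]; omega
  have h2 := sh_app (l.take n) (app (l.drop n) w)
  rw [h1] at h2
  exact h2

section
variable {ι A : Type*} [TopologicalSpace ι] [DiscreteTopology ι]
    [TopologicalSpace A] [DiscreteTopology A]

theorem ev_agree (x : ι × (ℕ → A)) (n : ℕ) :
    ∀ᶠ y in 𝓝 x, y.1 = x.1 ∧ ∀ i < n, y.2 i = x.2 i := by
  have h1 : ∀ᶠ y in 𝓝 x, y.1 = x.1 := by
    have hc : ContinuousAt (fun y : ι × (ℕ → A) => y.1) x := continuous_fst.continuousAt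
    have : {x.1} ∈ 𝓝 (x.1) := by simp
    exact hc this
  have h2 : ∀ᶠ y in 𝓝 x, ∀ i < n, y.2 i = x.2 i :=
    (continuous_snd.tendsto x).eventually (eventually_agree x.2 n)
  exact h1.and h2

theorem ev_slice {x : ι × (ℕ → A)} {P : ι × (ℕ → A) → Prop} (h : ∀ᶠ y in 𝓝 x, P y) :
    ∃ n, ∀ y : ι × (ℕ → A), y.1 = x.1 → (∀ i < n, y.2 i = x.2 i) → P y := by
  have hc : Continuous (fun w : ℕ → A => (x.1, w)) := by fun_prop
  have h1 : ∀ᶠ w in 𝓝 x.2, P (x.1, w) := (hc.tendsto x.2).eventually h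
  obtain ⟨n, hn⟩ := exists_cylinder h1
  refine ⟨n, fun y hy hy2 => ?_⟩
  have := hn y.2 hy2
  rw [← hy] at this
  exact this

theorem TailRule.comp_id {f g : ι × (ℕ → A) → ι × (ℕ → A)} (hf : TailRule f id)
    (hg : TailRule g id) (gc : Continuous g) : TailRule (fun x => f (g x)) id := by
  intro x
  obtain ⟨p, q, h1⟩ := hf (g x)
  obtain ⟨m, n, h2⟩ := hg x
  refine ⟨p + m, n + q, ?_⟩
  filter_upwards [(gc.tendsto x).eventually h1, h2] with y hy1 hy2
  rw [id] at hy1 hy2 ⊢
  rw [← sh_sh, hy1, sh_sh, add_comm q m, ← sh_sh, hy2, sh_sh]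

theorem TailRule.inv_id {f : (ι × (ℕ → A)) ≃ₜ (ι × (ℕ → A))} (hf : TailRule f id) :
    TailRule f.symm id := by
  intro x
  obtain ⟨m, n, h⟩ := hf (f.symm x)
  refine ⟨n, m, ?_⟩
  filter_upwards [(f.symm.continuous.tendsto x).eventually h] with y hy
  rw [f.apply_symm_apply] at hy
  exact hy.symm

theorem TailRule.cover [Finite ι] [Finite A] {f : (ι × (ℕ → A)) → (ι × (ℕ → A))}
    (fc : Continuous f) (hf : TailRule f id) :
    ∃ P : Set (ι × List A), P.Finite ∧
      (∀ x : ι × (ℕ → A), ∃ u ∈ P, ∃ w : ℕ → A, x = (u.1, app u.2 w)) ∧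
      ∀ u ∈ P, ∃ v : ι × List A, ∀ w : ℕ → A, f (u.1, app u.2 w) = (v.1, app v.2 w) := by
  have key : ∀ x : ι × (ℕ → A), ∃ N m n : ℕ, n ≤ N ∧ ∀ y : ι × (ℕ → A), y.1 = x.1 →
      (∀ i < N, y.2 i = x.2 i) → sh m (f y).2 = sh n y.2 ∧ (f y).1 = (f x).1 ∧
        ∀ i < m, (f y).2 i = (f x).2 i := by
    intro x
    obtain ⟨m, n, h⟩ := hf x
    obtain ⟨N, hN⟩ := ev_slice (h.and ((fc.tendsto x).eventually (ev_agree (f x) m)))
    refine ⟨max N n, m, n, le_max_right _ _, fun y hy hy2 => ?_⟩
    have := hN y hy fun i hi => hy2 i (lt_of_lt_of_le hi (le_max_left _ _))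
    exact ⟨this.1, this.2.1, this.2.2⟩
  choose N m n hnN hkey using key
  obtain ⟨t, ht⟩ := CompactSpace.elim_nhds_subcover
    (fun x : ι × (ℕ → A) => {y | y.1 = x.1 ∧ ∀ i < N x, y.2 i = x.2 i})
    (fun x => ev_agree x (N x))
  refine ⟨(fun x : ι × (ℕ → A) => (x.1, pre (N x) x.2)) '' (t : Set (ι × (ℕ → A))),
    (t.finite_toSet).image _, ?_, ?_⟩
  · intro y
    have hy : y ∈ ⋃ x ∈ t, {y : ι × (ℕ → A) | y.1 = x.1 ∧ ∀ i < N x, y.2 i = x.2 i} := by
      rw [ht]; trivial
    simp only [Set.mem_iUnion] at hy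
    obtain ⟨x, hx, h1, h2⟩ := hy
    refine ⟨_, ⟨x, hx, rfl⟩, sh (N x) y.2, ?_⟩
    ext1
    · exact h1
    · simp only
      rw [← pre_congr h2, app_pre]
  · rintro _ ⟨x, hx, rfl⟩
    refine ⟨((f x).1, pre (m x) (f x).2 ++ (pre (N x) x.2).drop (n x)), fun w => ?_⟩
    simp only
    set y : ι × (ℕ → A) := (x.1, app (pre (N x) x.2) w) with hy
    have h2 : ∀ i < N x, y.2 i = x.2 i := by
      intro i hi
      rw [hy]
      simp only
      rw [app_apply_lt _ _ _ (by rw [length_pre]; exact hi)]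
      simp [pre]
    obtain ⟨k1, k2, k3⟩ := hkey x y rfl h2
    ext1
    · exact k2
    · simp only
      rw [app_append, ← sh_app_drop _ _ (by rw [length_pre]; exact hnN x)]
      have k1' : sh (m x) (f y).2 = sh (n x) (app (pre (N x) x.2) w) := k1
      rw [← k1', ← pre_congr k3, app_pre]

theorem TailRule.of_cover {f : (ι × (ℕ → A)) → (ι × (ℕ → A))}
    (hf : ∃ P : Set (ι × List A),
      (∀ x : ι × (ℕ → A), ∃ u ∈ P, ∃ w : ℕ → A, x = (u.1, app u.2 w)) ∧
      ∀ u ∈ P, ∃ v : ι × List A, ∀ w : ℕ → A, f (u.1, app u.2 w) = (v.1, app v.2 w)) :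
    TailRule f id := by
  obtain ⟨P, h1, h2⟩ := hf
  intro x
  obtain ⟨u, hu, w, rfl⟩ := h1 x
  obtain ⟨v, hv⟩ := h2 u hu
  refine ⟨v.2.length, u.2.length, ?_⟩
  filter_upwards [ev_agree (u.1, app u.2 w) u.2.length] with y hy
  have e : y = (u.1, app u.2 (sh u.2.length y.2)) := by
    ext1
    · exact hy.1
    · simp only
      have : pre u.2.length y.2 = u.2 := by
        rw [pre_congr hy.2]
        exact pre_app _ _
      conv_rhs => rw [← this]
      rw [length_pre, app_pre]
  rw [id]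
  conv_lhs => rw [e, hv]
  simp only
  rw [sh_app]

/-- membership in a cone -/
theorem mem_cone_iff {i : ι} {u : List A} {x : ι × (ℕ → A)} :
    (∃ w, x = (i, app u w)) ↔ x.1 = i ∧ pre u.length x.2 = u := by
  constructor
  · rintro ⟨w, rfl⟩
    exact ⟨rfl, pre_app _ _⟩
  · rintro ⟨h1, h2⟩
    refine ⟨sh u.length x.2, ?_⟩
    ext1
    · exact h1
    · simp only
      conv_rhs => rw [← h2]
      rw [length_pre, app_pre]

theorem cone_ev (i : ι) (u : List A) (x : ι × (ℕ → A)) :
    ∀ᶠ y in 𝓝 x, ((∃ w, y = (i, app u w)) ↔ ∃ w, x = (i, app u w)) := by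
  filter_upwards [ev_agree x u.length] with y hy
  rw [mem_cone_iff, mem_cone_iff, hy.1, pre_congr hy.2]

open Classical in
/-- the swap map -/
noncomputable def swapMap (i j : ι) (u v : List A) (x : ι × (ℕ → A)) : ι × (ℕ → A) :=
  if ∃ w, x = (i, app u w) then (j, app v (sh u.length x.2))
  else if ∃ w, x = (j, app v w) then (i, app u (sh v.length x.2)) else x

omit [TopologicalSpace ι] [DiscreteTopology ι] [TopologicalSpace A] [DiscreteTopology A] in
theorem swapMap_u (i j : ι) (u v : List A) (w : ℕ → A) :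
    swapMap i j u v (i, app u w) = (j, app v w) := by
  unfold swapMap
  rw [if_pos ⟨w, rfl⟩]
  simp only [sh_app]

omit [TopologicalSpace ι] [DiscreteTopology ι] [TopologicalSpace A] [DiscreteTopology A] in
theorem swapMap_v {i j : ι} {u v : List A} (h : ∀ w z : ℕ → A, (i, app u w) ≠ (j, app v z))
    (w : ℕ → A) : swapMap i j u v (j, app v w) = (i, app u w) := by
  unfold swapMap
  rw [if_neg (by rintro ⟨z, hz⟩; exact h z w hz.symm), if_pos ⟨w, rfl⟩]
  simp only [sh_app]

omit [TopologicalSpace ι] [DiscreteTopology ι] [TopologicalSpace A] [DiscreteTopology A] in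
theorem swapMap_out {i j : ι} {u v : List A} {x : ι × (ℕ → A)} (h1 : ∀ w, x ≠ (i, app u w))
    (h2 : ∀ w, x ≠ (j, app v w)) : swapMap i j u v x = x := by
  unfold swapMap
  rw [if_neg (by rintro ⟨z, hz⟩; exact h1 z hz), if_neg (by rintro ⟨z, hz⟩; exact h2 z hz)]

omit [TopologicalSpace ι] [DiscreteTopology ι] [TopologicalSpace A] [DiscreteTopology A] in
theorem swapMap_swapMap {i j : ι} {u v : List A} (h : ∀ w z : ℕ → A, (i, app u w) ≠ (j, app v z))
    (x : ι × (ℕ → A)) : swapMap i j u v (swapMap i j u v x) = x := by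
  by_cases h1 : ∃ w, x = (i, app u w)
  · obtain ⟨w, rfl⟩ := h1
    rw [swapMap_u, swapMap_v h]
  by_cases h2 : ∃ w, x = (j, app v w)
  · obtain ⟨w, rfl⟩ := h2
    rw [swapMap_v h, swapMap_u]
  · push Not at h1 h2
    rw [swapMap_out h1 h2, swapMap_out h1 h2]

theorem swapMap_near {i j : ι} {u v : List A} (x : ι × (ℕ → A)) :
    (∀ᶠ y in 𝓝 x, swapMap i j u v y = (j, app v (sh u.length y.2))) ∨
    (∀ᶠ y in 𝓝 x, swapMap i j u v y = (i, app u (sh v.length y.2))) ∨
    (∀ᶠ y in 𝓝 x, swapMap i j u v y = y) := by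
  by_cases h1 : ∃ w, x = (i, app u w)
  · left
    filter_upwards [cone_ev i u x] with y hy
    unfold swapMap
    rw [if_pos (hy.2 h1)]
  by_cases h2 : ∃ w, x = (j, app v w)
  · right; left
    filter_upwards [cone_ev i u x, cone_ev j v x] with y hy1 hy2
    unfold swapMap
    rw [if_neg (fun hh => h1 (hy1.1 hh)), if_pos (hy2.2 h2)]
  · right; right
    filter_upwards [cone_ev i u x, cone_ev j v x] with y hy1 hy2
    unfold swapMap
    rw [if_neg (fun hh => h1 (hy1.1 hh)), if_neg (fun hh => h2 (hy2.1 hh))]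

theorem continuous_swapMap {i j : ι} {u v : List A} : Continuous (swapMap i j u v) := by
  rw [continuous_iff_continuousAt]
  intro x
  have c1 : Continuous (fun y : ι × (ℕ → A) => (j, app v (sh u.length y.2))) :=
    continuous_const.prodMk ((continuous_app v).comp ((continuous_sh _).comp continuous_snd))
  have c2 : Continuous (fun y : ι × (ℕ → A) => (i, app u (sh v.length y.2))) :=
    continuous_const.prodMk ((continuous_app u).comp ((continuous_sh _).comp continuous_snd))
  rcases swapMap_near (i := i) (j := j) (u := u) (v := v) x with h | h | h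
  · exact c1.continuousAt.congr (h.mono fun y hy => hy.symm)
  · exact c2.continuousAt.congr (h.mono fun y hy => hy.symm)
  · exact continuous_id.continuousAt.congr (h.mono fun y hy => hy.symm)

/-- The swap of two disjoint cones. -/
theorem exists_swap {i j : ι} {u v : List A}
    (h : ∀ w z : ℕ → A, (i, app u w) ≠ (j, app v z)) :
    ∃ f : (ι × (ℕ → A)) ≃ₜ (ι × (ℕ → A)), TailRule f id ∧
      (∀ w, f (i, app u w) = (j, app v w)) ∧ (∀ w, f (j, app v w) = (i, app u w)) ∧
      ∀ x, (∀ w, x ≠ (i, app u w)) → (∀ w, x ≠ (j, app v w)) → f x = x := by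
  refine ⟨{ toFun := swapMap i j u v
            invFun := swapMap i j u v
            left_inv := swapMap_swapMap h
            right_inv := swapMap_swapMap h
            continuous_toFun := continuous_swapMap
            continuous_invFun := continuous_swapMap }, ?_, fun w => swapMap_u i j u v w,
            fun w => swapMap_v h w, fun x h1 h2 => swapMap_out h1 h2⟩
  intro x
  rcases swapMap_near (i := i) (j := j) (u := u) (v := v) x with hx | hx | hx
  · refine ⟨v.length, u.length, ?_⟩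
    filter_upwards [hx] with y hy
    change sh v.length (swapMap i j u v y).2 = sh u.length y.2
    rw [hy]
    exact sh_app _ _
  · refine ⟨u.length, v.length, ?_⟩
    filter_upwards [hx] with y hy
    change sh u.length (swapMap i j u v y).2 = sh v.length y.2
    rw [hy]
    exact sh_app _ _
  · refine ⟨0, 0, ?_⟩
    filter_upwards [hx] with y hy
    change sh 0 (swapMap i j u v y).2 = sh 0 y.2
    rw [hy]

end

end Pool.Agent.H380DT
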