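import Pool.Agent.H380DT.BHmap
import Pool.Agent.H380DT.BEval
import Pool.Agent.H380DT.TailV

set_option autoImplicit false

namespace Pool.Agent.H380DT

open MeasureTheory Topology

namespace BM

section
variable {ι A : Type*}

/-- The cone of `(i, u)`. -/
def cone (i : ι) (u : List A) : Set (ι × (ℕ → A)) := Set.range fun w => (i, app u w)

theorem mem_cone {i : ι} {u : List A} {x : ι × (ℕ → A)} :
    x ∈ cone i u ↔ ∃ w, (i, app u w) = x := Iff.rfl

theorem isClosed_cone [Finite A] [TopologicalSpace ι] [DiscreteTopology ι]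
    [TopologicalSpace A] [DiscreteTopology A] (i : ι) (u : List A) :
    IsClosed (cone i u : Set (ι × (ℕ → A))) := by
  apply IsCompact.isClosed
  unfold cone
  apply isCompact_range
  exact continuous_const.prodMk (continuous_app u)

theorem app_inj (u : List A) {w z : ℕ → A} (h : app u w = app u z) : w = z := by
  have := congrArg (sh u.length) h
  rwa [sh_app, sh_app] at this

theorem cone_disj {u : List A} {q q' : A} (hq : q ≠ q') (i : ι) (l l' : List A) :
    ∀ w z : ℕ → A, (i, app (u ++ (q :: l)) w) ≠ (i, app (u ++ (q' :: l')) z) := by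
  intro w z h
  rw [Prod.mk.injEq] at h
  have h2 := h.2
  rw [app_append, app_append] at h2
  have h3 := app_inj u h2
  exact hq (congrFun h3 0)

variable [TopologicalSpace ι] [DiscreteTopology ι] [TopologicalSpace A] [DiscreteTopology A]
  [Finite A]
  [MeasurableSpace (ι × (ℕ → A))] [BorelSpace (ι × (ℕ → A))]

theorem swap_eq {E : Set (ι × (ℕ → A))} {μ : Measure (ι × (ℕ → A))}
    (hswap : ∀ f : (ι × (ℕ → A)) ≃ₜ (ι × (ℕ → A)), TailRule f id → (∀ x ∈ E, f x = x) →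
      μ.map f = μ) {i : ι} {u v : List A}
    (huv : ∀ w z : ℕ → A, (i, app u w) ≠ (i, app v z))
    (hu : ∀ x ∈ cone i u, x ∉ E) (hv : ∀ x ∈ cone i v, x ∉ E) :
    μ (cone i u) = μ (cone i v) := by
  obtain ⟨f, hf, h1, h2, h3⟩ := exists_swap huv
  have hfix : ∀ x ∈ E, f x = x := by
    intro x hx
    apply h3
    · intro w hw
      exact hu x ⟨w, hw.symm⟩ hx
    · intro w hw
      exact hv x ⟨w, hw.symm⟩ hx
  have hm := hswap f hf hfix
  have h4 : μ (cone i v) = μ (f ⁻¹' (cone i v)) := by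
    conv_lhs => rw [← hm]
    exact Measure.map_apply f.continuous.measurable (isClosed_cone i v).measurableSet
  rw [h4]
  congr 1
  ext x
  constructor
  · rintro ⟨w, rfl⟩
    exact ⟨w, (h1 w).symm⟩
  · rintro ⟨w, hw⟩
    refine ⟨w, f.injective ?_⟩
    rw [← hw]
    exact h1 w

theorem cone_null [Nontrivial A] {E : Set (ι × (ℕ → A))} {μ : Measure (ι × (ℕ → A))}
    [IsProbabilityMeasure μ]
    (hswap : ∀ f : (ι × (ℕ → A)) ≃ₜ (ι × (ℕ → A)), TailRule f id → (∀ x ∈ E, f x = x) →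
      μ.map f = μ) {i : ι} {u : List A} (hu : ∀ x ∈ cone i u, x ∉ E) :
    μ (cone i u) = 0 := by
  have hsub : ∀ l : List A, ∀ x ∈ cone i (u ++ l), x ∉ E := by
    rintro l x ⟨w, rfl⟩
    refine hu _ ⟨app l w, ?_⟩
    simp only
    rw [app_append]
  have hq : ∀ q : A, μ (cone i (u ++ [q])) = 0 := by
    intro q
    obtain ⟨q', hq'⟩ := exists_ne q
    have e1 : μ (cone i (u ++ [q])) = μ (cone i (u ++ [q'])) :=
      swap_eq hswap (cone_disj hq'.symm i [] []) (hsub _) (hsub _)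
    have e2 : ∀ r, μ (cone i (u ++ [q, r])) = μ (cone i (u ++ [q'])) := fun r =>
      swap_eq hswap (cone_disj hq'.symm i [r] []) (hsub _) (hsub _)
    have hd : Disjoint (cone i (u ++ [q, q])) (cone i (u ++ [q, q'])) := by
      rw [Set.disjoint_left]
      rintro x ⟨w, rfl⟩ ⟨z, hz⟩
      have e3 : u ++ [q, q] = (u ++ [q]) ++ [q] := by simp
      have e4 : u ++ [q, q'] = (u ++ [q]) ++ [q'] := by simp
      simp only [e3, e4] at hz
      exact cone_disj hq'.symm i [] [] w z hz.symm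
    have hs : cone i (u ++ [q, q]) ∪ cone i (u ++ [q, q']) ⊆ cone i (u ++ [q]) := by
      rintro x (⟨w, rfl⟩ | ⟨w, rfl⟩)
      · refine ⟨cons q w, ?_⟩
        simp [app_append]
      · refine ⟨cons q' w, ?_⟩
        simp [app_append]
    have h5 := measure_mono (μ := μ) hs
    rw [measure_union hd (isClosed_cone _ _).measurableSet, e2, e2, ← e1] at h5
    have h6 : μ (cone i (u ++ [q])) ≠ ⊤ := measure_ne_top _ _
    by_contra h7
    have h8 : μ (cone i (u ++ [q])) + 0 < μ (cone i (u ++ [q])) + μ (cone i (u ++ [q])) :=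
      ENNReal.add_lt_add_left h6 (pos_iff_ne_zero.2 h7)
    rw [add_zero] at h8
    exact absurd h5 (not_le.2 h8)
  have h1 : cone i u ⊆ ⋃ q : A, cone i (u ++ [q]) := by
    rintro x ⟨w, rfl⟩
    rw [Set.mem_iUnion]
    refine ⟨w 0, sh 1 w, ?_⟩
    simp only
    rw [app_append, app_cons, app_nil, cons_sh]
  have h2 : μ (⋃ q : A, cone i (u ++ [q])) = 0 := by
    rw [measure_iUnion_null_iff]
    exact hq
  exact measure_mono_null h1 h2

theorem compl_null [Finite ι] [Nontrivial A] {E : Set (ι × (ℕ → A))}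
    (hE : IsClosed E) {μ : Measure (ι × (ℕ → A))}
    [IsProbabilityMeasure μ]
    (hswap : ∀ f : (ι × (ℕ → A)) ≃ₜ (ι × (ℕ → A)), TailRule f id → (∀ x ∈ E, f x = x) →
      μ.map f = μ) : μ Eᶜ = 0 := by
  have h1 : Eᶜ ⊆ ⋃ p : {p : ι × List A // ∀ x ∈ cone p.1 p.2, x ∉ E}, cone p.1.1 p.1.2 := by
    intro x hx
    obtain ⟨n, hn⟩ := ev_slice (x := x) (P := fun y => y ∉ E) (hE.isOpen_compl.mem_nhds hx)
    rw [Set.mem_iUnion]
    refine ⟨⟨(x.1, pre n x.2), ?_⟩, sh n x.2, ?_⟩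
    · rintro y ⟨w, rfl⟩
      refine hn _ rfl ?_
      intro i hi
      simp only
      rw [app_apply_lt _ _ _ (by rw [length_pre]; exact hi)]
      simp [pre]
    · simp only
      rw [app_pre]
  refine measure_mono_null h1 ?_
  rw [measure_iUnion_null_iff]
  rintro ⟨⟨i, u⟩, hu⟩
  exact cone_null hswap hu

end

section
variable {ι A : Type*} (C : Code D3 A) (i0 : ι)

/-- The datum number `n` satisfies `Q`. -/
def cellSet (Q : D3 → Prop) (n : ℕ) : Set (ι × (ℕ → A)) :=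
  {x | ∃ d, C.IsCell x.2 (n * C.L) d ∧ Q d}

theorem isClosed_cellSet [TopologicalSpace ι] [TopologicalSpace A]
    [DiscreteTopology A] (Q : D3 → Prop) (n : ℕ) : IsClosed (cellSet (ι := ι) C Q n) := by
  have : IsClosed {w : ℕ → A | ∃ d, C.IsCell w (n * C.L) d ∧ Q d} := by
    refine isClosed_fin (n * C.L + C.L) ?_
    rintro w z hz ⟨d, hd, hd'⟩
    refine ⟨d, fun i hi => ?_, hd'⟩
    rw [← hz (n * C.L + i) (by omega)]
    exact hd i hi
  exact this.preimage continuous_snd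

theorem mem_cellSet {Q : D3 → Prop} {n : ℕ} {s : ℕ → D3} {i : ι} :
    (i, C.cells s) ∈ cellSet C Q n ↔ Q (s n) := by
  constructor
  · rintro ⟨d, hd, hd'⟩
    rw [C.isCell_unique (C.isCell_cells s n) hd]
    exact hd'
  · intro h
    exact ⟨s n, C.isCell_cells s n, h⟩

/-- Pair part. -/
def pr (d : D3) : ZMod 2 × ZMod 2 := (d 0, d 1)

/-- The piece of `E` where the first nonzero pair is `e`. -/
def FF (e : ZMod 2 × ZMod 2) : Set (ι × (ℕ → A)) :=
  EB C i0 ∩ ⋃ n : ℕ, (cellSet C (fun d => pr d = e) n ∩ ⋂ k : Fin n,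
    cellSet C (fun d => pr d = 0) k)

theorem mem_FF {e : ZMod 2 × ZMod 2} {s : ℕ → D3} (hs : s 0 ≠ 0) :
    (i0, C.cells s) ∈ FF C i0 e ↔ ∃ n, pr (s n) = e ∧ ∀ k < n, pr (s k) = 0 := by
  unfold FF
  rw [Set.mem_inter_iff, Set.mem_iUnion]
  constructor
  · rintro ⟨-, n, h1, h2⟩
    rw [mem_cellSet] at h1
    refine ⟨n, h1, fun k hk => ?_⟩
    rw [Set.mem_iInter] at h2
    have := h2 ⟨k, hk⟩
    rwa [mem_cellSet] at this
  · rintro ⟨n, h1, h2⟩
    refine ⟨⟨s, hs, rfl⟩, n, (mem_cellSet C).2 h1, ?_⟩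
    rw [Set.mem_iInter]
    intro k
    exact (mem_cellSet C).2 (h2 k k.2)

theorem FF_sub {e : ZMod 2 × ZMod 2} {x : ι × (ℕ → A)} (hx : x ∈ FF C i0 e) :
    ∃ s : ℕ → D3, s 0 ≠ 0 ∧ x = (i0, C.cells s) ∧ ∃ n, pr (s n) = e ∧ ∀ k < n, pr (s k) = 0 := by
  obtain ⟨s, hs, rfl⟩ := hx.1
  exact ⟨s, hs, rfl, (mem_FF C i0 hs).1 hx⟩

theorem FF_disj {e e' : ZMod 2 × ZMod 2} (he : e ≠ 0) (he' : e' ≠ 0) (h : e ≠ e') :
    Disjoint (FF C i0 e) (FF C i0 e') := by
  rw [Set.disjoint_left]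
  intro x hx hx'
  obtain ⟨s, hs, rfl, n, h1, h2⟩ := FF_sub C i0 hx
  obtain ⟨m, h3, h4⟩ := (mem_FF C i0 hs).1 hx'
  rcases lt_trichotomy n m with h5 | h5 | h5
  · exact he (h1.symm.trans (h4 n h5))
  · subst h5
    exact h (h1.symm.trans h3)
  · exact he' (h3.symm.trans (h2 m h5))

theorem isClosed_FF [TopologicalSpace ι] [DiscreteTopology ι] [TopologicalSpace A]
    [DiscreteTopology A] [MeasurableSpace (ι × (ℕ → A))] [BorelSpace (ι × (ℕ → A))]
    (e : ZMod 2 × ZMod 2) : MeasurableSet (FF C i0 e) := by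
  refine (isClosed_EB C i0).measurableSet.inter (MeasurableSet.iUnion fun n => ?_)
  refine (isClosed_cellSet C _ n).measurableSet.inter ?_
  exact (isClosed_iInter fun k => isClosed_cellSet C _ _).measurableSet

/-- The facts about the three matrices. -/
theorem mat_fact {N : Matrix (Fin 3) (Fin 3) (ZMod 2)} {e : ZMod 2 × ZMod 2}
    (hN : N = N12 ∧ e = (1, 0) ∨ N = N21 ∧ e = (0, 1) ∨ N = NJ ∧ e = (1, 1)) :
    (∀ d : D3, pr d ≠ 0 → pr d ≠ e → Nmap N d ≠ 0 ∧ pr (Nmap N d) = e) ∧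
      (∀ d : D3, pr d = 0 → Nmap N d = 0) ∧ ∀ d : D3, (Nmap N d) 2 = 0 := by
  rcases hN with ⟨rfl, rfl⟩ | ⟨rfl, rfl⟩ | ⟨rfl, rfl⟩
  · unfold pr Nmap N12
    decide
  · unfold pr Nmap N21
    decide
  · unfold pr Nmap NJ
    decide

theorem pr_add (a b : D3) : pr (a + b) = pr a + pr b := rfl

theorem FF_map [DecidableEq ι] {N : Matrix (Fin 3) (Fin 3) (ZMod 2)} {e e' : ZMod 2 × ZMod 2}
    (hN : N = N12 ∧ e = (1, 0) ∨ N = N21 ∧ e = (0, 1) ∨ N = NJ ∧ e = (1, 1)) (he' : e' ≠ 0)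
    (h : e' ≠ e) : FF C i0 e' ⊆ C.hfun i0 (Nmap N) ⁻¹' FF C i0 e := by
  intro x hx
  obtain ⟨s, hs0, rfl, n, h1, h2⟩ := FF_sub C i0 hx
  obtain ⟨f1, f2, f3⟩ := mat_fact hN
  rw [Set.mem_preimage, C.hfun_cells i0 _ s hs0]
  have hn := f1 (s n) (by rw [h1]; exact he') (by rw [h1]; exact h)
  unfold hs
  rcases Nat.eq_zero_or_pos n with h0 | h0
  · subst h0
    rw [if_pos hn.1, mem_FF]
    · exact ⟨0, hn.2, fun k hk => absurd hk (Nat.not_lt_zero k)⟩
    · exact hn.1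
  · have g0 : Nmap N (s 0) = 0 := f2 _ (h2 0 h0)
    obtain ⟨m, rfl⟩ := Nat.exists_eq_add_of_le h0
    have g1 : phs (Nmap N) s 0 ≠ 0 := by
      intro hc
      have a4 : (s 0) 2 ≠ 0 := by
        intro a4
        have a1 := h2 0 h0
        have a2 : (s 0) 0 = 0 := congrArg Prod.fst a1
        have a3 : (s 0) 1 = 0 := congrArg Prod.snd a1
        apply hs0
        funext j
        fin_cases j
        · exact a2
        · exact a3
        · exact a4
      apply a4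
      have a5 := congrFun hc 2
      have a6 : (s 0) 2 + (Nmap N (s (0 + 1))) 2 = 0 := a5
      rwa [f3, add_zero] at a6
    rw [if_neg (by rw [g0]; simp), if_pos g1, mem_FF]
    · refine ⟨m, ?_, fun k hk => ?_⟩
      · unfold phs
        rw [pr_add, h2 m (by omega), zero_add, show m + 1 = 1 + m by omega]
        exact hn.2
      · unfold phs
        rw [pr_add, h2 k (by omega), f2 (s (k + 1)) (h2 (k + 1) (by omega))]
        rfl
    · exact g1

theorem rest_map [DecidableEq ι] : EB C i0 \ (FF C i0 (1, 0) ∪ FF C i0 (0, 1) ∪ FF C i0 (1, 1)) ⊆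
    C.hfun i0 (Nmap N13) ⁻¹' FF C i0 (1, 0) := by
  rintro x ⟨⟨s, hs0, rfl⟩, hx⟩
  have hz : ∀ n, pr (s n) = 0 := by
    intro n
    induction n using Nat.strong_induction_on with
    | _ n ih =>
      by_contra hc
      apply hx
      have hcase : ∀ e : ZMod 2 × ZMod 2, e ≠ 0 → e = (1, 0) ∨ e = (0, 1) ∨ e = (1, 1) := by
        decide
      rcases hcase _ hc with h | h | h
      · exact Or.inl (Or.inl ((mem_FF C i0 hs0).2 ⟨n, h, ih⟩))
      · exact Or.inl (Or.inr ((mem_FF C i0 hs0).2 ⟨n, h, ih⟩))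
      · exact Or.inr ((mem_FF C i0 hs0).2 ⟨n, h, ih⟩)
  have hfact : ∀ d : D3, d ≠ 0 → pr d = 0 → Nmap N13 d ≠ 0 ∧ pr (Nmap N13 d) = (1, 0) := by
    unfold pr Nmap N13
    decide
  have h0 := hfact (s 0) hs0 (hz 0)
  rw [Set.mem_preimage, C.hfun_cells i0 _ s hs0]
  unfold hs
  rw [if_pos h0.1, mem_FF]
  · exact ⟨0, h0.2, fun k hk => absurd hk (Nat.not_lt_zero k)⟩
  · exact h0.1

end

end BM

open BM in
theorem no_measure_B {ι A : Type*} [Finite ι] [Finite A] [DecidableEq ι]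
    [TopologicalSpace ι] [DiscreteTopology ι]
    [TopologicalSpace A] [DiscreteTopology A] [Nontrivial A] (C : Code D3 A) (i0 : ι)
    [MeasurableSpace (ι × (ℕ → A))] [BorelSpace (ι × (ℕ → A))]
    (μ : Measure (ι × (ℕ → A))) [IsProbabilityMeasure μ]
    (hswap : ∀ f : (ι × (ℕ → A)) ≃ₜ (ι × (ℕ → A)), TailRule f id → (∀ x ∈ EB C i0, f x = x) →
      μ.map f = μ)
    (hN : ∀ N, (N = N12 ∨ N = N21 ∨ N = NJ ∨ N = N13) → μ.map (C.hfun i0 (Nmap N)) = μ) :
    False := by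
  have hc := compl_null (isClosed_EB C i0) hswap
  have hmeas : ∀ e, MeasurableSet (FF C i0 e) := isClosed_FF C i0
  have hpre : ∀ N, (N = N12 ∨ N = N21 ∨ N = NJ ∨ N = N13) → ∀ e,
      μ (C.hfun i0 (Nmap N) ⁻¹' FF C i0 e) = μ (FF C i0 e) := by
    intro N hN' e
    conv_rhs => rw [← hN N hN']
    rw [Measure.map_apply (C.continuous_hfun (Nmap N) i0).measurable (hmeas e)]
  have key : ∀ (N : Matrix (Fin 3) (Fin 3) (ZMod 2)) (e e' e'' : ZMod 2 × ZMod 2),
      (N = N12 ∧ e = (1, 0) ∨ N = N21 ∧ e = (0, 1) ∨ N = NJ ∧ e = (1, 1)) → e' ≠ 0 → e'' ≠ 0 →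
      e' ≠ e → e'' ≠ e → e' ≠ e'' → μ (FF C i0 e') + μ (FF C i0 e'') ≤ μ (FF C i0 e) := by
    intro N e e' e'' h1 h2 h3 h4 h5 h6
    have hN' : N = N12 ∨ N = N21 ∨ N = NJ ∨ N = N13 := by
      rcases h1 with h | h | h
      · exact Or.inl h.1
      · exact Or.inr (Or.inl h.1)
      · exact Or.inr (Or.inr (Or.inl h.1))
    rw [← measure_union (FF_disj C i0 h2 h3 h6) (hmeas e''), ← hpre N hN' e]
    exact measure_mono (Set.union_subset (FF_map C i0 h1 h2 h4) (FF_map C i0 h1 h3 h5))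
  have k1 := key N12 (1, 0) (0, 1) (1, 1) (by simp) (by decide) (by decide) (by decide)
    (by decide) (by decide)
  have k2 := key N21 (0, 1) (1, 0) (1, 1) (by simp) (by decide) (by decide) (by decide)
    (by decide) (by decide)
  have k3 := key NJ (1, 1) (1, 0) (0, 1) (by simp) (by decide) (by decide) (by decide)
    (by decide) (by decide)
  have k4 : μ (EB C i0 \ (FF C i0 (1, 0) ∪ FF C i0 (0, 1) ∪ FF C i0 (1, 1))) ≤
      μ (FF C i0 (1, 0)) := by
    rw [← hpre N13 (by simp) (1, 0)]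
    exact measure_mono (rest_map C i0)
  have z : μ (FF C i0 (1, 0)) = 0 ∧ μ (FF C i0 (0, 1)) = 0 ∧ μ (FF C i0 (1, 1)) = 0 := by
    have t1 : μ (FF C i0 (1, 0)) ≠ ⊤ := measure_ne_top _ _
    have t2 : μ (FF C i0 (0, 1)) ≠ ⊤ := measure_ne_top _ _
    have t3 : μ (FF C i0 (1, 1)) ≠ ⊤ := measure_ne_top _ _
    generalize μ (FF C i0 (1, 0)) = x at *
    generalize μ (FF C i0 (0, 1)) = y at *
    generalize μ (FF C i0 (1, 1)) = w at *
    lift x to NNReal using t1
    lift y to NNReal using t2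
    lift w to NNReal using t3
    norm_cast at k1 k2 k3 ⊢
    have k1' : (y : ℝ) + w ≤ x := by exact_mod_cast k1
    have k2' : (x : ℝ) + w ≤ y := by exact_mod_cast k2
    have k3' : (x : ℝ) + y ≤ w := by exact_mod_cast k3
    have px : (0 : ℝ) ≤ x := x.2
    have py : (0 : ℝ) ≤ y := y.2
    have pw : (0 : ℝ) ≤ w := w.2
    refine ⟨?_, ?_, ?_⟩
    · have : (x : ℝ) = 0 := by linarith
      exact_mod_cast this
    · have : (y : ℝ) = 0 := by linarith
      exact_mod_cast this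
    · have : (w : ℝ) = 0 := by linarith
      exact_mod_cast this
  obtain ⟨z1, z2, z3⟩ := z
  rw [z1] at k4
  have hE : μ (EB C i0) = 0 := by
    have hsub : EB C i0 ⊆ (EB C i0 \ (FF C i0 (1, 0) ∪ FF C i0 (0, 1) ∪ FF C i0 (1, 1))) ∪
        (FF C i0 (1, 0) ∪ FF C i0 (0, 1) ∪ FF C i0 (1, 1)) := by
      rw [Set.sdiff_union_self]
      exact Set.subset_union_left
    refine measure_mono_null hsub ?_
    rw [measure_union_null_iff, measure_union_null_iff, measure_union_null_iff]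
    exact ⟨nonpos_iff_eq_zero.1 k4, ⟨z1, z2⟩, z3⟩
  have huniv : μ Set.univ = 0 := by
    rw [← Set.union_compl_self (EB C i0), measure_union_null_iff]
    exact ⟨hE, hc⟩
  rw [measure_univ] at huniv
  exact one_ne_zero huniv

end Pool.Agent.H380DT
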