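import Pool.Agent.H380DT.BCode
import Pool.Agent.H380DT.TailV

set_option autoImplicit false
set_option linter.unusedSectionVars false

namespace Pool.Agent.H380DT

open MeasureTheory Topology

namespace Code

section
variable {D A : Type*} [AddCommGroup D] (C : Code D A) (N : D →+ D)

theorem cut_congr {w z : ℕ → A} {n : ℕ} (h : ∀ j < n + C.L, w j = z j) (hw : C.Cut w n) :
    C.Cut z n := by
  intro p d hp hpn
  exact hw p d ((C.isCell_congr fun j hj => h j (by omega)).2 hp) hpn

theorem exists_cut (w : ℕ → A) (J₀ : ℕ) : ∃ J, J₀ ≤ J ∧ C.Cut w J := by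
  by_cases h : C.Cut w J₀
  · exact ⟨J₀, le_rfl, h⟩
  · unfold Cut at h
    push Not at h
    obtain ⟨P, d, hP, h1, h2⟩ := h
    refine ⟨P + C.L, h2.le, fun p e hp hlt => ?_⟩
    rcases lt_trichotomy p P with h3 | h3 | h3
    · have := C.isCell_disjoint hp hP h3
      omega
    · omega
    · have := C.isCell_disjoint hP hp h3
      omega

theorem tailRule_conj {ι : Type*} [TopologicalSpace ι] [DiscreteTopology ι]
    [TopologicalSpace A] [DiscreteTopology A]
    (h2 : ∀ d : D, d + d = 0) (hN : ∀ d, N (N d) = 0)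
    (h v : ι × (ℕ → A) → ι × (ℕ → A)) (hc : Continuous h) (vc : Continuous v)
    (hh : TailRule h (C.phi N)) (hv : TailRule v id) :
    TailRule (fun x => h (v (h x))) id := by
  intro x
  obtain ⟨m, n, e1⟩ := hh x
  obtain ⟨q, p, e2⟩ := hv (h x)
  obtain ⟨m', n', e3⟩ := hh (v (h x))
  obtain ⟨J, hJ, hcut⟩ := C.exists_cut (sh n' (v (h x)).2) (q + m + 2 * C.L)
  have hL := C.hL
  obtain ⟨j, hj⟩ : ∃ j, j + m + q = p + n' + J := ⟨p + n' + J - q - m, by omega⟩
  refine ⟨m' + J, n + j, ?_⟩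
  have vhc : Continuous (fun y => v (h y)) := vc.comp hc
  filter_upwards [e1, (hc.tendsto x).eventually e2, (vhc.tendsto x).eventually e3,
    (vhc.tendsto x).eventually (ev_agree (v (h x)) (n' + J + C.L))] with y y1 y2 y3 y4
  rw [id] at y2 ⊢
  have c1 : C.Cut (sh n' (v (h y)).2) J := by
    refine C.cut_congr (fun i hi => ?_) hcut
    rw [sh_apply, sh_apply]
    exact (y4.2 (n' + i) (by omega)).symm
  -- pointwise forms
  have y1' : ∀ i, (h y).2 (m + i) = C.phi N (sh n y.2) i := fun i => congrFun y1 i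
  have y2' : ∀ i, (v (h y)).2 (q + i) = (h y).2 (p + i) := fun i => congrFun y2 i
  have c2 : C.Cut (sh n y.2) j := by
    intro P d hP hPj
    by_contra hc2
    push Not at hc2
    obtain ⟨d', hd'⟩ := C.phi_isCell N hP
    -- position in the other word
    obtain ⟨t, ht⟩ : ∃ t, p + t = m + P := ⟨m + P - p, by omega⟩
    obtain ⟨P', hP'⟩ : ∃ P', n' + P' = q + t := ⟨q + t - n', by omega⟩
    have hcell : C.IsCell (sh n' (v (h y)).2) P' d' := by
      intro i hi
      rw [sh_apply, ← hd' i hi, ← y1' (P + i)]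
      rw [show n' + (P' + i) = q + (t + i) by omega, y2', show p + (t + i) = m + (P + i) by omega]
    have := c1 P' d' hcell (by omega)
    omega
  have s1 : sh (m' + J) (h (v (h y))).2 = C.phi N (sh (n' + J) (v (h y)).2) := by
    rw [← sh_sh, y3, C.phi_sh N c1, sh_sh]
  have s2 : sh (n' + J) (v (h y)).2 = C.phi N (sh (n + j) y.2) := by
    obtain ⟨a, ha⟩ : ∃ a, n' + J = q + a := ⟨n' + J - q, by omega⟩
    rw [ha, ← sh_sh, y2, sh_sh, show p + a = m + j by omega, ← sh_sh, y1, C.phi_sh N c2, sh_sh]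
  change sh (m' + J) (h (v (h y))).2 = _
  rw [s1, s2, C.phi_phi N h2 hN]

end

end Code

end Pool.Agent.H380DT
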