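import Pool.Agent.H380DT.BHmap
import Pool.Agent.H380DT.Rat

set_option autoImplicit false

namespace Pool.Agent.H380DT

open MeasureTheory Topology

namespace Code

section
variable {D A : Type*} [AddCommGroup D] (C : Code D A) (N : D →+ D)

omit [AddCommGroup D] in
theorem put_eq_app (d : D) (w : ℕ → A) : C.put d w = app (pre C.L (C.cell d)) w := by
  have h1 := app_pre C.L (C.put d w)
  rw [C.sh_put] at h1
  have h2 : pre C.L (C.put d w) = pre C.L (C.cell d) := by
    refine pre_congr fun i hi => ?_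
    have := C.isCell_put_zero d w i hi
    rwa [zero_add] at this
  rw [h2] at h1
  exact h1.symm

omit [AddCommGroup D] in
theorem app_agree (u : List A) (w z : ℕ → A) {i : ℕ} (hi : i < u.length) :
    app u w i = app u z i := by
  rw [app_apply_lt _ _ _ hi, app_apply_lt _ _ _ hi]

theorem stepPhi [Nonempty A] (u : List A) (hu : 3 * C.L ≤ u.length) :
    ∃ (c : ℕ) (r : List A), 1 ≤ c ∧ c ≤ C.L ∧ r.length = c ∧
      ∀ w, C.phi N (app u w) = app r (C.phi N (app (u.drop c) w)) := by
  obtain ⟨a₀⟩ := ‹Nonempty A›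
  have hL := C.hL
  set w₀ : ℕ → A := fun _ => a₀ with hw₀
  obtain ⟨c, hc1, hc2, hcut⟩ : ∃ c, 1 ≤ c ∧ c ≤ C.L ∧ ∀ w, C.Cut (app u w) c := by
    by_cases h : ∃ d, C.IsCell (app u w₀) 0 d
    · obtain ⟨d, hd⟩ := h
      refine ⟨C.L, hL, le_rfl, fun w => C.cut_L (d := d) ?_⟩
      exact (C.isCell_congr fun j hj => app_agree u w w₀ (by omega)).2 hd
    · refine ⟨1, le_rfl, hL, fun w p d hp hlt => ?_⟩
      exfalso
      have hp0 : p = 0 := by omega
      subst hp0
      exact h ⟨d, (C.isCell_congr fun j hj => app_agree u w₀ w (by omega)).2 hp⟩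
  refine ⟨c, pre c (C.phi N (app u w₀)), hc1, hc2, length_pre _ _, fun w => ?_⟩
  have h1 := app_pre c (C.phi N (app u w))
  rw [C.phi_sh N (hcut w), sh_app_drop _ _ (by omega)] at h1
  rw [← h1]
  congr 1
  refine pre_congr fun i hi => ?_
  exact C.phi_congr N fun j hj => app_agree u w w₀ (by omega)

theorem stepH [Nonempty A] (u : List A) (hu : 3 * C.L ≤ u.length) :
    ∃ (k : ℕ) (r : List A), 1 ≤ k ∧ k ≤ C.L ∧
      ∀ w, C.hmap N (app u w) = app r (C.phi N (app (u.drop k) w)) := by
  have hL := C.hL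
  obtain ⟨c, r, hc1, hc2, _, hr⟩ := C.stepPhi N u hu
  obtain ⟨a₀⟩ := ‹Nonempty A›
  set w₀ : ℕ → A := fun _ => a₀ with hw₀
  by_cases h : ∃ d, C.IsCell (app u w₀) 0 d
  · obtain ⟨d, hd⟩ := h
    have hd' : ∀ w, C.IsCell (app u w) 0 d := fun w =>
      (C.isCell_congr fun j hj => app_agree u w w₀ (by omega)).2 hd
    by_cases h0 : d = 0
    · subst h0
      refine ⟨C.L, pre C.L (C.cell 0), hL, le_rfl, fun w => ?_⟩
      rw [C.hmap_zero N (hd' w), put_eq_app, sh_app_drop _ _ (by omega)]
    by_cases h1 : N d = 0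
    · by_cases h2 : C.IsCell (C.phi N (app u w₀)) 0 0
      · have h2' : ∀ w, C.IsCell (C.phi N (app u w)) 0 0 := by
          intro w
          refine (C.isCell_congr fun j hj => ?_).2 h2
          exact C.phi_congr N fun i hi => app_agree u w w₀ (by omega)
        refine ⟨C.L, [], hL, le_rfl, fun w => ?_⟩
        rw [C.hmap_sh N (hd' w) h0 h1 (h2' w), C.phi_sh N (C.cut_L (hd' w)),
          sh_app_drop _ _ (by omega)]
        rfl
      · have h2' : ∀ w, ¬ C.IsCell (C.phi N (app u w)) 0 0 := by
          intro w hw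
          refine h2 ((C.isCell_congr fun j hj => ?_).2 hw)
          exact C.phi_congr N fun i hi => app_agree u w₀ w (by omega)
        refine ⟨c, r, hc1, hc2, fun w => ?_⟩
        rw [C.hmap_id N (hd' w) h0 h1 (h2' w), hr]
    · refine ⟨c, pre C.L (C.cell (N d)) ++ r, hc1, hc2, fun w => ?_⟩
      rw [C.hmap_N N (hd' w) h1, put_eq_app, hr, app_append]
  · refine ⟨c, r, hc1, hc2, fun w => ?_⟩
    rw [C.hmap_none N, hr]
    intro d hd
    exact h ⟨d, (C.isCell_congr fun j hj => app_agree u w₀ w (by omega)).2 hd⟩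

end

end Code

theorem rational_hmap {D A : Type*} [Finite A] [AddCommGroup D] (C : Code D A) (N : D →+ D) :
    ∃ T : Transducer A, T.Computes (C.hmap N) := by
  rcases isEmpty_or_nonempty A with hA | hA
  · refine ⟨⟨PUnit, inferInstance, PUnit.unit, fun s _ => s, fun _ _ => []⟩, fun w => ?_⟩
    exact hA.elim (w 0)
  have hL := C.hL
  have p1 : ∀ u : List A, ∃ (c : ℕ) (r : List A), 3 * C.L ≤ u.length →
      1 ≤ c ∧ c ≤ C.L ∧ r.length = c ∧
      ∀ w, C.phi N (app u w) = app r (C.phi N (app (u.drop c) w)) := by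
    intro u
    by_cases hu : 3 * C.L ≤ u.length
    · obtain ⟨c, r, h⟩ := C.stepPhi N u hu
      exact ⟨c, r, fun _ => h⟩
    · exact ⟨0, [], fun h => absurd h hu⟩
  have p2 : ∀ u : List A, ∃ (c : ℕ) (r : List A), 3 * C.L ≤ u.length →
      1 ≤ c ∧ c ≤ C.L ∧
      ∀ w, C.hmap N (app u w) = app r (C.phi N (app (u.drop c) w)) := by
    intro u
    by_cases hu : 3 * C.L ≤ u.length
    · obtain ⟨c, r, h⟩ := C.stepH N u hu
      exact ⟨c, r, fun _ => h⟩
    · exact ⟨0, [], fun h => absurd h hu⟩
  choose c1 r1 hc1 using p1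
  choose c2 r2 hc2 using p2
  have hfin : Finite {l : List A // l.length ≤ 3 * C.L} :=
    (List.finite_length_le A (3 * C.L)).to_subtype
  -- states
  let σ := Bool × {l : List A // l.length ≤ 3 * C.L}
  let F : σ → (ℕ → A) → (ℕ → A) := fun s w =>
    if s.1 then C.hmap N (app s.2.1 w) else C.phi N (app s.2.1 w)
  let o : σ → A → List A := fun s _ =>
    if s.2.1.length < 3 * C.L then [] else (if s.1 then r2 s.2.1 else r1 s.2.1)
  let kk : σ → ℕ := fun s => if s.1 then c2 s.2.1 else c1 s.2.1
  have hkk : ∀ s : σ, ¬ s.2.1.length < 3 * C.L → 1 ≤ kk s ∧ kk s ≤ C.L := by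
    intro s hs
    change 1 ≤ (if s.1 then c2 s.2.1 else c1 s.2.1) ∧ (if s.1 then c2 s.2.1 else c1 s.2.1) ≤ C.L
    split_ifs
    · exact ⟨(hc2 _ (not_lt.1 hs)).1, (hc2 _ (not_lt.1 hs)).2.1⟩
    · exact ⟨(hc1 _ (not_lt.1 hs)).1, (hc1 _ (not_lt.1 hs)).2.1⟩
  let nx : σ → A → σ := fun s a =>
    if h : s.2.1.length < 3 * C.L then
      (s.1, ⟨s.2.1 ++ [a], by rw [List.length_append, List.length_singleton]; omega⟩)
    else (false, ⟨s.2.1.drop (kk s) ++ [a], by
      rw [List.length_append, List.length_singleton, List.length_drop]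
      have := hkk s h
      have := s.2.2
      omega⟩)
  let φ : σ → ℕ := fun s => if s.1 then s.2.1.length else s.2.1.length + C.L
  have e1 : ∀ s a w, F s (cons a w) = app (o s a) (F (nx s a) w) := by
    intro s a w
    by_cases hs : s.2.1.length < 3 * C.L
    · have h1 : o s a = [] := if_pos hs
      have h2 : nx s a =
        (s.1, ⟨s.2.1 ++ [a], by rw [List.length_append, List.length_singleton]; omega⟩) :=
        dif_pos hs
      rw [h1, h2]
      change (if s.1 then C.hmap N (app s.2.1 (cons a w)) else C.phi N (app s.2.1 (cons a w))) =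
        (if s.1 then C.hmap N (app (s.2.1 ++ [a]) w) else C.phi N (app (s.2.1 ++ [a]) w))
      rw [app_append]
      rfl
    · have h1 : o s a = (if s.1 then r2 s.2.1 else r1 s.2.1) := if_neg hs
      have h2 : (nx s a).1 = false ∧ (nx s a).2.1 = s.2.1.drop (kk s) ++ [a] := by
        have : nx s a = _ := dif_neg hs
        rw [this]
        exact ⟨rfl, rfl⟩
      rw [h1]
      have h3 : F (nx s a) w = C.phi N (app (s.2.1.drop (kk s)) (cons a w)) := by
        change (if (nx s a).1 then C.hmap N (app (nx s a).2.1 w)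
          else C.phi N (app (nx s a).2.1 w)) = _
        rw [h2.1, h2.2, app_append]
        rfl
      rw [h3]
      change (if s.1 then C.hmap N (app s.2.1 (cons a w)) else C.phi N (app s.2.1 (cons a w))) =
        app (if s.1 then r2 s.2.1 else r1 s.2.1)
          (C.phi N (app (s.2.1.drop (if s.1 then c2 s.2.1 else c1 s.2.1)) (cons a w)))
      split_ifs
      · exact (hc2 _ (not_lt.1 hs)).2.2 _
      · exact (hc1 _ (not_lt.1 hs)).2.2.2 _
  have e2 : ∀ s a, φ s + 1 ≤ φ (nx s a) + (o s a).length := by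
    intro s a
    by_cases hs : s.2.1.length < 3 * C.L
    · have h1 : o s a = [] := if_pos hs
      have h2 : nx s a =
        (s.1, ⟨s.2.1 ++ [a], by rw [List.length_append, List.length_singleton]; omega⟩) :=
        dif_pos hs
      rw [h1, h2]
      change (if s.1 then s.2.1.length else s.2.1.length + C.L) + 1 ≤
        (if s.1 then (s.2.1 ++ [a]).length else (s.2.1 ++ [a]).length + C.L) + 0
      rw [List.length_append, List.length_singleton]
      split_ifs <;> omega
    · have h1 : o s a = (if s.1 then r2 s.2.1 else r1 s.2.1) := if_neg hs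
      have h2 : (nx s a).1 = false ∧ (nx s a).2.1 = s.2.1.drop (kk s) ++ [a] := by
        have : nx s a = _ := dif_neg hs
        rw [this]
        exact ⟨rfl, rfl⟩
      rw [h1]
      have h3 : φ (nx s a) = (s.2.1.drop (kk s) ++ [a]).length + C.L := by
        change (if (nx s a).1 then (nx s a).2.1.length else (nx s a).2.1.length + C.L) = _
        rw [h2.1, h2.2]
        rfl
      rw [h3, List.length_append, List.length_singleton, List.length_drop]
      have hk := hkk s hs
      have h4 : s.1 = false → (r1 s.2.1).length = kk s := by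
        intro hf
        change _ = (if s.1 then c2 s.2.1 else c1 s.2.1)
        rw [hf]
        exact (hc1 _ (not_lt.1 hs)).2.2.1
      change (if s.1 then s.2.1.length else s.2.1.length + C.L) + 1 ≤ _
      by_cases hb : s.1 = true
      · rw [if_pos hb, if_pos hb]
        omega
      · have hb' : s.1 = false := by simpa using hb
        rw [if_neg hb, if_neg hb, h4 hb']
        omega
  obtain ⟨T, hT⟩ := rational_of_family F o nx e1 φ e2 (true, ⟨[], Nat.zero_le _⟩)
  exact ⟨T, hT⟩

end Pool.Agent.H380DT
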