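import Pool.Agent.H380DT.BCode

set_option autoImplicit false

namespace Pool.Agent.H380DT

open MeasureTheory Topology

namespace Code

section
variable {D A : Type*} [AddCommGroup D] (C : Code D A) (N : D →+ D)

omit [AddCommGroup D] in
theorem isCell_put_zero (d : D) (w : ℕ → A) : C.IsCell (C.put d w) 0 d := by
  intro i hi
  unfold put
  rw [zero_add, if_pos hi]

omit [AddCommGroup D] in
theorem sh_put (d : D) (w : ℕ → A) : sh C.L (C.put d w) = w := by
  funext i
  rw [sh_apply]
  unfold put
  rw [if_neg (by omega)]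
  congr 1
  omega

omit [AddCommGroup D] in
theorem put_sh {w : ℕ → A} {d : D} (h : C.IsCell w 0 d) : C.put d (sh C.L w) = w := by
  funext i
  unfold put
  split_ifs with hi
  · rw [← h i hi, zero_add]
  · rw [sh_apply]
    congr 1
    omega

omit [AddCommGroup D] in
theorem cut_L {w : ℕ → A} {d : D} (h : C.IsCell w 0 d) : C.Cut w C.L := by
  intro p e he hp
  rcases Nat.eq_zero_or_pos p with h0 | h0
  · omega
  · have := C.isCell_disjoint h he h0
    omega

/-- The datum at `0` after `phi`. -/
theorem phi_datum (hN : ∀ d, N (N d) = 0) {w : ℕ → A} {p : ℕ} {d : D}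
    (h : C.IsCell w p d) : ∃ d', C.IsCell (C.phi N w) p d' ∧ N d' = N d := by
  by_cases h2 : ∃ e, C.IsCell w (p + C.L) e
  · obtain ⟨e, he⟩ := h2
    exact ⟨_, C.phi_cell N h he, by rw [map_add, hN, add_zero]⟩
  · push Not at h2
    exact ⟨_, C.phi_cell' N h h2, rfl⟩

theorem phi_put_cell {w : ℕ → A} {e : D} (d : D) (h : C.IsCell w 0 e) :
    C.phi N (C.put d w) = C.put (d + N e) (C.phi N w) := by
  have h0 := C.isCell_put_zero d w
  have h1 : C.IsCell (C.put d w) (0 + C.L) e := by
    rw [zero_add, ← Nat.add_zero C.L, ← isCell_sh, sh_put]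
    exact h
  have h2 := C.phi_cell N h0 h1
  have h3 := C.phi_sh N (C.cut_L h0)
  rw [sh_put] at h3
  rw [← h3, C.put_sh h2]

theorem phi_put_none {w : ℕ → A} (d : D) (h : ∀ e, ¬ C.IsCell w 0 e) :
    C.phi N (C.put d w) = C.put d (C.phi N w) := by
  have h0 := C.isCell_put_zero d w
  have h1 : ∀ e, ¬ C.IsCell (C.put d w) (0 + C.L) e := by
    intro e he
    rw [zero_add, ← Nat.add_zero C.L, ← isCell_sh, sh_put] at he
    exact h e he
  have h2 := C.phi_cell' N h0 h1
  have h3 := C.phi_sh N (C.cut_L h0)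
  rw [sh_put] at h3
  rw [← h3, C.put_sh h2]

theorem hmap_none {w : ℕ → A} (h : ∀ d, ¬ C.IsCell w 0 d) : C.hmap N w = C.phi N w := by
  unfold hmap
  rw [dif_neg]
  push Not
  exact h

theorem hmap_zero {w : ℕ → A} (h : C.IsCell w 0 0) :
    C.hmap N w = C.put 0 (C.phi N (sh C.L w)) := by
  have hc : ∃ d, C.IsCell w 0 d := ⟨0, h⟩
  have h1 : hc.choose = 0 := C.isCell_unique hc.choose_spec h
  unfold hmap
  rw [dif_pos hc, if_pos h1]

theorem hmap_N {w : ℕ → A} {d : D} (h : C.IsCell w 0 d) (hd : N d ≠ 0) :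
    C.hmap N w = C.put (N d) (C.phi N w) := by
  have hc : ∃ d, C.IsCell w 0 d := ⟨d, h⟩
  have h1 : hc.choose = d := C.isCell_unique hc.choose_spec h
  have h0 : d ≠ 0 := by
    rintro rfl
    exact hd (map_zero N)
  unfold hmap
  rw [dif_pos hc, if_neg (by rw [h1]; exact h0), if_pos (by rw [h1]; exact hd), h1]

theorem hmap_sh {w : ℕ → A} {d : D} (h : C.IsCell w 0 d) (h0 : d ≠ 0) (hd : N d = 0)
    (hp : C.IsCell (C.phi N w) 0 0) : C.hmap N w = sh C.L (C.phi N w) := by
  have hc : ∃ d, C.IsCell w 0 d := ⟨d, h⟩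
  have h1 : hc.choose = d := C.isCell_unique hc.choose_spec h
  unfold hmap
  rw [dif_pos hc, if_neg (by rw [h1]; exact h0), if_neg (by rw [h1, hd]; simp), if_pos hp]

theorem hmap_id {w : ℕ → A} {d : D} (h : C.IsCell w 0 d) (h0 : d ≠ 0) (hd : N d = 0)
    (hp : ¬ C.IsCell (C.phi N w) 0 0) : C.hmap N w = C.phi N w := by
  have hc : ∃ d, C.IsCell w 0 d := ⟨d, h⟩
  have h1 : hc.choose = d := C.isCell_unique hc.choose_spec h
  unfold hmap
  rw [dif_pos hc, if_neg (by rw [h1]; exact h0), if_neg (by rw [h1, hd]; simp), if_neg hp]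

theorem hmap_hmap (h2 : ∀ d : D, d + d = 0) (hN : ∀ d, N (N d) = 0) (w : ℕ → A) :
    C.hmap N (C.hmap N w) = w := by
  by_cases hc : ∃ d, C.IsCell w 0 d
  · obtain ⟨d, hd⟩ := hc
    by_cases h0 : d = 0
    · subst h0
      rw [C.hmap_zero N hd, C.hmap_zero N (C.isCell_put_zero _ _), sh_put, C.phi_phi N h2 hN,
        C.put_sh hd]
    · by_cases h1 : N d = 0
      · by_cases h3 : C.IsCell (C.phi N w) 0 0
        · rw [C.hmap_sh N hd h0 h1 h3, C.phi_sh N (C.cut_L hd)]
          -- there is a next cell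
          have he : ∃ e, C.IsCell w (0 + C.L) e := by
            by_contra hne
            push Not at hne
            exact h0 (C.isCell_unique (C.phi_cell' N hd hne) h3)
          obtain ⟨e, he⟩ := he
          have h4 : d + N e = 0 := C.isCell_unique (C.phi_cell N hd he) h3
          have h5 : N e = d := by
            have hd2 := h2 d
            rw [← hd2] at h4
            exact add_left_cancel h4
          have h6 : C.IsCell (sh C.L w) 0 e := by
            rw [isCell_sh, Nat.add_zero]
            rwa [Nat.zero_add] at he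
          obtain ⟨e1, he1, he2⟩ := C.phi_datum N hN h6
          rw [C.hmap_N N he1 (by rw [he2, h5]; exact h0), C.phi_phi N h2 hN, he2, h5, C.put_sh hd]
        · rw [C.hmap_id N hd h0 h1 h3]
          obtain ⟨d1, hd1, hd2⟩ := C.phi_datum N hN hd
          have h4 : d1 ≠ 0 := by
            rintro rfl
            exact h3 hd1
          rw [C.hmap_id N hd1 h4 (by rw [hd2, h1])]
          · exact C.phi_phi N h2 hN w
          · rw [C.phi_phi N h2 hN w]
            intro h5
            exact h0 (C.isCell_unique hd h5)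
      · rw [C.hmap_N N hd h1]
        obtain ⟨d1, hd1, hd2⟩ := C.phi_datum N hN hd
        have h4 : C.phi N (C.put (N d) (C.phi N w)) = C.put 0 w := by
          rw [C.phi_put_cell N (N d) hd1, hd2, h2, C.phi_phi N h2 hN]
        rw [C.hmap_sh N (C.isCell_put_zero _ _) h1 (hN d), h4, sh_put]
        rw [h4]
        exact C.isCell_put_zero _ _
  · push Not at hc
    rw [C.hmap_none N hc, C.hmap_none N, C.phi_phi N h2 hN]
    intro d hd
    obtain ⟨d', hd'⟩ := (C.phi_isCell_iff N).1 ⟨d, hd⟩
    exact hc d' hd'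

omit [AddCommGroup D] in
theorem continuous_put [TopologicalSpace A] (d : D) : Continuous (C.put d) := by
  refine continuous_pi fun i => ?_
  unfold put
  split_ifs
  · exact continuous_const
  · exact continuous_apply _

theorem hmap_near [TopologicalSpace A] [DiscreteTopology A] (w : ℕ → A) :
    ∃ F : (ℕ → A) → (ℕ → A), Continuous F ∧ ∃ m n : ℕ, ∀ᶠ z in 𝓝 w, C.hmap N z = F z ∧
      sh m (C.hmap N z) = C.phi N (sh n z) := by
  have hag := eventually_agree w (3 * C.L)
  have hcell : ∀ z : ℕ → A, (∀ i < 3 * C.L, z i = w i) → ∀ d, C.IsCell z 0 d ↔ C.IsCell w 0 d := by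
    intro z hz d
    exact C.isCell_congr fun j hj => hz j (by omega)
  have hphi : ∀ z : ℕ → A, (∀ i < 3 * C.L, z i = w i) → ∀ d, C.IsCell (C.phi N z) 0 d ↔
      C.IsCell (C.phi N w) 0 d := by
    intro z hz d
    refine C.isCell_congr fun j hj => C.phi_congr N fun k hk => hz k (by omega)
  by_cases hc : ∃ d, C.IsCell w 0 d
  · obtain ⟨d, hd⟩ := hc
    by_cases h0 : d = 0
    · subst h0
      refine ⟨fun z => C.put 0 (C.phi N (sh C.L z)),
        (C.continuous_put 0).comp ((C.continuous_phi N).comp (continuous_sh _)), C.L, C.L, ?_⟩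
      filter_upwards [hag] with z hz
      have := C.hmap_zero N ((hcell z hz 0).2 hd)
      exact ⟨this, by rw [this, sh_put]⟩
    · by_cases h1 : N d = 0
      · by_cases h3 : C.IsCell (C.phi N w) 0 0
        · refine ⟨fun z => sh C.L (C.phi N z), (continuous_sh _).comp (C.continuous_phi N), 0,
            C.L, ?_⟩
          filter_upwards [hag] with z hz
          have hzd := (hcell z hz d).2 hd
          have := C.hmap_sh N hzd h0 h1 ((hphi z hz 0).2 h3)
          exact ⟨this, by rw [this, sh_zero, C.phi_sh N (C.cut_L hzd)]⟩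
        · refine ⟨C.phi N, C.continuous_phi N, 0, 0, ?_⟩
          filter_upwards [hag] with z hz
          have hzd := (hcell z hz d).2 hd
          have := C.hmap_id N hzd h0 h1 (fun h => h3 ((hphi z hz 0).1 h))
          exact ⟨this, by rw [this, sh_zero, sh_zero]⟩
      · refine ⟨fun z => C.put (N d) (C.phi N z), (C.continuous_put _).comp (C.continuous_phi N),
          C.L, 0, ?_⟩
        filter_upwards [hag] with z hz
        have := C.hmap_N N ((hcell z hz d).2 hd) h1
        exact ⟨this, by rw [this, sh_put, sh_zero]⟩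
  · push Not at hc
    refine ⟨C.phi N, C.continuous_phi N, 0, 0, ?_⟩
    filter_upwards [hag] with z hz
    have := C.hmap_none N (w := z) fun d hd => hc d ((hcell z hz d).1 hd)
    exact ⟨this, by rw [this, sh_zero, sh_zero]⟩

theorem continuous_hmap [TopologicalSpace A] [DiscreteTopology A] : Continuous (C.hmap N) := by
  refine continuous_iff_continuousAt.2 fun w => ?_
  obtain ⟨F, hF, m, n, h⟩ := C.hmap_near N w
  refine hF.continuousAt.congr ?_
  filter_upwards [h] with z hz
  exact hz.1.symm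

theorem hfun_hfun {ι : Type*} [DecidableEq ι] (i0 : ι) (h2 : ∀ d : D, d + d = 0)
    (hN : ∀ d, N (N d) = 0) (x : ι × (ℕ → A)) :
    C.hfun i0 N (C.hfun i0 N x) = x := by
  unfold hfun
  by_cases h : x.1 = i0
  · rw [if_pos h, if_pos h]
    simp only [C.hmap_hmap N h2 hN]
  · rw [if_neg h, if_neg h]
    simp only [C.phi_phi N h2 hN]

theorem continuous_hfun {ι : Type*} [DecidableEq ι] [TopologicalSpace ι] [DiscreteTopology ι]
    [TopologicalSpace A] [DiscreteTopology A] (i0 : ι) : Continuous (C.hfun i0 N) := by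
  have h1 : IsClopen {x : ι × (ℕ → A) | x.1 = i0} :=
    (isClopen_discrete {i0}).preimage continuous_fst
  unfold hfun
  refine Continuous.if ?_ ?_ ?_
  · intro a ha
    rw [h1.frontier_eq] at ha
    exact absurd ha (Set.notMem_empty _)
  · exact continuous_fst.prodMk ((C.continuous_hmap N).comp continuous_snd)
  · exact continuous_fst.prodMk ((C.continuous_phi N).comp continuous_snd)

theorem tailRule_hfun {ι : Type*} [DecidableEq ι] [TopologicalSpace ι] [DiscreteTopology ι]
    [TopologicalSpace A] [DiscreteTopology A] (i0 : ι) :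
    TailRule (C.hfun i0 N) (C.phi N) := by
  intro x
  have h1 : ∀ᶠ y in 𝓝 x, y.1 = x.1 := by
    have : ContinuousAt (fun y : ι × (ℕ → A) => y.1) x := continuousAt_fst
    exact this (show {x.1} ∈ 𝓝 x.1 by simp)
  by_cases h : x.1 = i0
  · obtain ⟨F, hF, m, n, hz⟩ := C.hmap_near N x.2
    refine ⟨m, n, ?_⟩
    have h2 : ∀ᶠ y in 𝓝 x, sh m (C.hmap N y.2) = C.phi N (sh n y.2) := by
      have : ContinuousAt (fun y : ι × (ℕ → A) => y.2) x := continuousAt_snd
      exact this (hz.mono fun z hz => hz.2)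
    filter_upwards [h1, h2] with y hy1 hy2
    unfold hfun
    rw [if_pos (hy1.trans h)]
    exact hy2
  · refine ⟨0, 0, ?_⟩
    filter_upwards [h1] with y hy1
    unfold hfun
    rw [if_neg (by rw [hy1]; exact h)]
    simp

omit [AddCommGroup D] in
theorem isCell_cells (s : ℕ → D) (n : ℕ) : C.IsCell (C.cells s) (n * C.L) (s n) := by
  intro i hi
  unfold cells
  have hL := C.hL
  have h1 : (n * C.L + i) / C.L = n := by
    rw [Nat.mul_comm, Nat.mul_add_div hL, Nat.div_eq_of_lt hi, add_zero]
  have h2 : (n * C.L + i) % C.L = i := by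
    rw [Nat.mul_comm, Nat.mul_add_mod, Nat.mod_eq_of_lt hi]
  rw [h1, h2]

theorem phi_cells (s : ℕ → D) : C.phi N (C.cells s) = C.cells fun n => s n + N (s (n + 1)) := by
  funext i
  have hL := C.hL
  have h1 := C.isCell_cells s (i / C.L)
  have h2 := C.isCell_cells s (i / C.L + 1)
  rw [add_mul, one_mul] at h2
  have h3 : i / C.L * C.L + i % C.L = i := by
    rw [Nat.mul_comm]
    exact Nat.div_add_mod i C.L
  have h4 := Nat.mod_lt i hL
  rw [C.phi_in N h1 h2 (by omega) (by omega)]
  unfold cells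
  congr 1
  omega

omit [AddCommGroup D] in
theorem sh_cells (s : ℕ → D) : sh C.L (C.cells s) = C.cells (sh 1 s) := by
  funext i
  unfold cells sh
  have hL := C.hL
  have h1 : (C.L + i) / C.L = 1 + i / C.L := by
    rw [Nat.add_div_left _ hL, add_comm]
  have h2 : (C.L + i) % C.L = i % C.L := Nat.add_mod_left _ _
  simp only [h1, h2]

omit [AddCommGroup D] in
theorem put_cells (d : D) (s : ℕ → D) : C.put d (C.cells s) = C.cells (cons d s) := by
  have h1 := C.isCell_cells (cons d s) 0
  rw [zero_mul, cons_zero] at h1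
  have h2 := C.sh_cells (cons d s)
  rw [sh_one_cons] at h2
  rw [← h2, C.put_sh h1]

theorem hfun_cells {ι A : Type*} [DecidableEq ι] (C : Code D3 A) (i0 : ι) (N : D3 →+ D3)
    (s : ℕ → D3) (hs0 : s 0 ≠ 0) :
    C.hfun i0 N (i0, C.cells s) = (i0, C.cells (hs N s)) := by
  unfold hfun
  rw [if_pos rfl]
  congr 1
  simp only
  have h0 : C.IsCell (C.cells s) 0 (s 0) := by
    have := C.isCell_cells s 0
    rwa [zero_mul] at this
  have hphi : C.phi N (C.cells s) = C.cells (phs N s) := C.phi_cells N s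
  have h1 : C.IsCell (C.phi N (C.cells s)) 0 (phs N s 0) := by
    rw [hphi]
    have := C.isCell_cells (phs N s) 0
    rwa [zero_mul] at this
  unfold hs
  split_ifs with a1 a2
  · rw [C.hmap_N N h0 a1, hphi, put_cells]
  · rw [C.hmap_id N h0 hs0 (not_not.1 a1), hphi]
    intro hc
    exact a2 (C.isCell_unique h1 hc)
  · rw [C.hmap_sh N h0 hs0 (not_not.1 a1), hphi, sh_cells]
    rw [← not_not.1 a2]
    exact h1

/-- The homeomorphism. -/
noncomputable def HN {ι : Type*} [DecidableEq ι] [TopologicalSpace ι] [DiscreteTopology ι]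
    [TopologicalSpace A] [DiscreteTopology A] (i0 : ι) (h2 : ∀ d : D, d + d = 0)
    (hN : ∀ d, N (N d) = 0) : (ι × (ℕ → A)) ≃ₜ (ι × (ℕ → A)) where
  toFun := C.hfun i0 N
  invFun := C.hfun i0 N
  left_inv := C.hfun_hfun N i0 h2 hN
  right_inv := C.hfun_hfun N i0 h2 hN
  continuous_toFun := C.continuous_hfun N i0
  continuous_invFun := C.continuous_hfun N i0

end

end Code

end Pool.Agent.H380DT
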