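import Pool.Agent.H380DT.BEval
import Pool.Agent.H380DT.BAlg
import Pool.Agent.H380DT.BHmap
import Pool.Agent.H380DT.Transfer

set_option autoImplicit false

namespace Pool.Agent.H380DT

open MeasureTheory Topology

theorem Nmap_sq {N : Matrix (Fin 3) (Fin 3) (ZMod 2)} (hN : N * N = 0) (d : D3) :
    Nmap N (Nmap N d) = 0 := by
  simp [Nmap, hN]

theorem d3_two (d : D3) : d + d = 0 := by
  funext i
  simp only [Pi.add_apply, Pi.zero_apply]
  generalize d i = x
  revert x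
  decide

theorem N12_sq : N12 * N12 = 0 := by decide
theorem N21_sq : N21 * N21 = 0 := by decide
theorem NJ_sq : NJ * NJ = 0 := by decide
theorem N13_sq : N13 * N13 = 0 := by decide

theorem gen_sq {N : Matrix (Fin 3) (Fin 3) (ZMod 2)}
    (hN : N = N12 ∨ N = N21 ∨ N = NJ ∨ N = N13) : N * N = 0 := by
  rcases hN with rfl | rfl | rfl | rfl
  · exact N12_sq
  · exact N21_sq
  · exact NJ_sq
  · exact N13_sq

theorem Pol.add {x y : K} (hx : Pol x) (hy : Pol y) : Pol (x + y) := by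
  intro n hn
  rw [HahnSeries.coeff_add, hx n hn, hy n hn, add_zero]

theorem Pol.neg {x : K} (hx : Pol x) : Pol (-x) := by
  intro n hn
  rw [HahnSeries.coeff_neg, hx n hn, neg_zero]

theorem Pol.zero : Pol (0 : K) := fun _ _ => rfl

theorem Pol.single {k : ℤ} (hk : k ≤ 0) (c : ZMod 2) : Pol (HahnSeries.single k c : K) := by
  intro n hn
  exact HahnSeries.coeff_single_of_ne (by omega)

theorem Pol.one : Pol (1 : K) := Pol.single le_rfl 1

theorem Pol.mul {x y : K} (hx : Pol x) (hy : Pol y) : Pol (x * y) := by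
  intro n hn
  rw [HahnSeries.coeff_mul]
  refine Finset.sum_eq_zero ?_
  rintro ⟨i, j⟩ hij
  rw [Finset.mem_antidiagonal] at hij
  have h3 : i + j = n := hij.2.2
  rcases lt_or_ge 0 i with h | h
  · simp [hx i h]
  · have : 0 < j := by omega
    simp [hy j this]

theorem two_eq_zero_K : (2 : K) = 0 := by
  have h : (2 : ZMod 2) = 0 := by decide
  have h2 := congrArg (algebraMap (ZMod 2) K) h
  rw [map_ofNat, map_zero] at h2
  exact h2

theorem add_self_K (x : K) : x + x = 0 := by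
  rw [← two_mul, two_eq_zero_K, zero_mul]

theorem neg_eq_K (x : K) : -x = x := by
  rw [neg_eq_iff_add_eq_zero, add_self_K]

theorem sub_eq_K (x y : K) : x - y = x + y := by
  rw [sub_eq_add_neg, neg_eq_K]

section vecs

theorem vec3_zero_of {x : Fin 2 → K} {z : K} (h : vec3 x z = 0) : x = 0 ∧ z = 0 := by
  have h0 := congrFun h 0
  have h1 := congrFun h 1
  have h2 := congrFun h 2
  simp [vec3] at h0 h1 h2
  refine ⟨?_, h2⟩
  funext i
  fin_cases i
  · exact h0
  · exact h1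

theorem vec3_ne_of_right {x : Fin 2 → K} {z : K} (hz : z ≠ 0) : vec3 x z ≠ 0 :=
  fun h => hz (vec3_zero_of h).2

theorem vec3_ne_of_left {x : Fin 2 → K} {z : K} (hx : x ≠ 0) : vec3 x z ≠ 0 :=
  fun h => hx (vec3_zero_of h).1

theorem mulVec_inj {M : Matrix (Fin 2) (Fin 2) K} (hM : M.det ≠ 0) {x y : Fin 2 → K}
    (h : M.mulVec x = M.mulVec y) : x = y := by
  have hu : IsUnit M.det := isUnit_iff_ne_zero.2 hM
  have := congrArg (M⁻¹.mulVec) h
  rwa [Matrix.mulVec_mulVec, Matrix.mulVec_mulVec, Matrix.nonsing_inv_mul M hu,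
    Matrix.one_mulVec, Matrix.one_mulVec] at this

theorem aff_ne {M : Matrix (Fin 2) (Fin 2) K} (hM : M.det = 1) (b : Fin 2 → K) {x : Fin 2 → K}
    {z : K} (h : vec3 x z ≠ 0) : vec3 (M.mulVec x + z • b) z ≠ 0 := by
  intro h0
  obtain ⟨h1, h2⟩ := vec3_zero_of h0
  subst h2
  apply h
  have : x = 0 := by
    apply mulVec_inj (M := M) (by rw [hM]; exact one_ne_zero)
    simpa using h1
  subst this
  funext i
  fin_cases i <;> simp [vec3]

end vecs

section
variable {ι A : Type*} (C : Code D3 A) (i0 : ι)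

theorem Aff.comp {f g : ι × (ℕ → A) → ι × (ℕ → A)} (hf : Aff C i0 f) (hg : Aff C i0 g) :
    Aff C i0 (fun x => f (g x)) := by
  obtain ⟨M, b, hM, hP, hf⟩ := hf
  obtain ⟨M', b', hM', hP', hg⟩ := hg
  refine ⟨M * M', M.mulVec b' + b, by rw [Matrix.det_mul, hM, hM', one_mul], ?_, ?_⟩
  · intro i j
    rw [Matrix.mul_apply, Fin.sum_univ_two]
    exact ((hP i 0).mul (hP' 0 j)).add ((hP i 1).mul (hP' 1 j))
  · intro x z h
    show f (g _) = _
    rw [hg x z h, hf _ z (aff_ne hM' b' h)]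
    congr 2
    rw [Matrix.mulVec_add, Matrix.mulVec_mulVec, Matrix.mulVec_smul, smul_add, add_assoc]

theorem Aff.inv [TopologicalSpace ι] [TopologicalSpace A]
    {g : (ι × (ℕ → A)) ≃ₜ (ι × (ℕ → A))} (hg : Aff C i0 g) :
    Aff C i0 g.symm := by
  obtain ⟨M, b, hM, hP, hg⟩ := hg
  have hMM : M * M.adjugate = 1 := by rw [Matrix.mul_adjugate, hM, one_smul]
  have hdet : M.adjugate.det = 1 := by
    have := congrArg Matrix.det hMM
    rwa [Matrix.det_mul, hM, one_mul, Matrix.det_one] at this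
  refine ⟨M.adjugate, -M.adjugate.mulVec b, hdet, ?_, ?_⟩
  · intro i j
    rw [Matrix.adjugate_fin_two]
    fin_cases i <;> fin_cases j
    · exact hP 1 1
    · exact (hP 0 1).neg
    · exact (hP 1 0).neg
    · exact hP 0 0
  · intro x z h
    rw [Homeomorph.symm_apply_eq, hg _ z (aff_ne hdet _ h)]
    congr 2
    rw [Matrix.mulVec_add, Matrix.mulVec_mulVec, hMM, Matrix.one_mulVec, Matrix.mulVec_smul,
      Matrix.mulVec_neg, Matrix.mulVec_mulVec, hMM, Matrix.one_mulVec]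
    simp

theorem ev_mem_EB {v : Fin 3 → K} (hv : v ≠ 0) : ev C i0 v ∈ EB C i0 :=
  ⟨nrm v, nrm_zero_ne hv, rfl⟩

theorem Aff.of_fix {g : ι × (ℕ → A) → ι × (ℕ → A)} (hg : ∀ x ∈ EB C i0, g x = x) :
    Aff C i0 g := by
  refine ⟨1, 0, Matrix.det_one, ?_, ?_⟩
  · intro i j
    by_cases h : i = j
    · subst h; rw [Matrix.one_apply_eq]; exact Pol.one
    · rw [Matrix.one_apply_ne h]; exact Pol.zero
  · intro x z h
    rw [hg _ (ev_mem_EB C i0 h)]
    simp

theorem Pol.TT : Pol TT := Pol.single (by norm_num) 1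

theorem aff_HN [DecidableEq ι] (N : Matrix (Fin 3) (Fin 3) (ZMod 2))
    (hN : N = N12 ∨ N = N21 ∨ N = NJ ∨ N = N13) : Aff C i0 (C.hfun i0 (Nmap N)) := by
  have key : ∀ v : Fin 3 → K, v ≠ 0 → C.hfun i0 (Nmap N) (ev C i0 v) = ev C i0 (TN N v) := by
    intro v hv
    simp only [ev]
    rw [C.hfun_cells i0 (Nmap N) (nrm v) (nrm_zero_ne hv), nrm_TN N (gen_sq hN) hv]
  have hT2 : (TT + TT : K) = 0 := add_self_K TT
  rcases hN with rfl | rfl | rfl | rfl
  · refine ⟨!![1, TT; 0, 1], 0, by simp [Matrix.det_fin_two], ?_, ?_⟩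
    · intro i j
      fin_cases i <;> fin_cases j
      · exact Pol.one
      · exact Pol.TT
      · exact Pol.zero
      · exact Pol.one
    · intro x z h
      rw [key _ h]
      congr 1
      funext i
      fin_cases i <;> simp [TN, vec3, N12, Matrix.mulVec, dotProduct, Fin.sum_univ_succ]
  · refine ⟨!![1, 0; TT, 1], 0, by simp [Matrix.det_fin_two], ?_, ?_⟩
    · intro i j
      fin_cases i <;> fin_cases j
      · exact Pol.one
      · exact Pol.zero
      · exact Pol.TT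
      · exact Pol.one
    · intro x z h
      rw [key _ h]
      congr 1
      funext i
      fin_cases i <;> simp [TN, vec3, N21, Matrix.mulVec, dotProduct, Fin.sum_univ_succ]
      ring
  · refine ⟨!![1 + TT, TT; TT, 1 + TT], 0, ?_, ?_, ?_⟩
    · rw [Matrix.det_fin_two]
      simp only [Matrix.of_apply, Matrix.cons_val', Matrix.cons_val_zero, Matrix.cons_val_one,
        Matrix.cons_val_fin_one]
      linear_combination hT2
    · intro i j
      fin_cases i <;> fin_cases j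
      · exact Pol.one.add Pol.TT
      · exact Pol.TT
      · exact Pol.TT
      · exact Pol.one.add Pol.TT
    · intro x z h
      rw [key _ h]
      congr 1
      funext i
      fin_cases i <;> simp [TN, vec3, NJ, Matrix.mulVec, dotProduct, Fin.sum_univ_succ] <;> ring
  · refine ⟨1, ![TT, 0], Matrix.det_one, ?_, ?_⟩
    · intro i j
      by_cases h : i = j
      · subst h; rw [Matrix.one_apply_eq]; exact Pol.one
      · rw [Matrix.one_apply_ne h]; exact Pol.zero
    · intro x z h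
      rw [key _ h]
      congr 1
      funext i
      fin_cases i <;> simp [TN, vec3, N13, Matrix.mulVec, dotProduct, Fin.sum_univ_succ]
      ring


section ping

variable [TopologicalSpace ι] [TopologicalSpace A]

/-- Affine action data. -/
def ActBy (g : ι × (ℕ → A) → ι × (ℕ → A)) (M : Matrix (Fin 2) (Fin 2) K) (b : Fin 2 → K) :
    Prop := ∀ x z, vec3 x z ≠ 0 → g (ev C i0 (vec3 x z)) = ev C i0 (vec3 (M.mulVec x + z • b) z)

theorem ActBy.pow {g : (ι × (ℕ → A)) ≃ₜ (ι × (ℕ → A))} {M : Matrix (Fin 2) (Fin 2) K}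
    {b : Fin 2 → K} (hM : M.det = 1) (hg : ActBy C i0 g M b) (n : ℕ) :
    ∃ b', ActBy C i0 (g ^ n : (ι × (ℕ → A)) ≃ₜ (ι × (ℕ → A))) (M ^ n) b' := by
  induction n with
  | zero => exact ⟨0, fun x z h => by simp⟩
  | succ n ih =>
    obtain ⟨b', hb'⟩ := ih
    refine ⟨(M ^ n).mulVec b + b', fun x z h => ?_⟩
    rw [pow_succ]
    show (g ^ n) (g _) = _
    rw [hg x z h, hb' _ z (aff_ne hM b h)]
    congr 2
    rw [Matrix.mulVec_add, Matrix.mulVec_mulVec, Matrix.mulVec_smul, smul_add, add_assoc, pow_succ]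

/-- Elements of finite order on `E`. -/
theorem finite_case {g : (ι × (ℕ → A)) ≃ₜ (ι × (ℕ → A))} {M : Matrix (Fin 2) (Fin 2) K}
    {b : Fin 2 → K} (hM : M.det = 1) (hg : ActBy C i0 g M b) (h6 : M ^ 6 = 1)
    {U V : Set (ι × (ℕ → A))} (hp : PP g U V) {x : Fin 2 → K} {z : K} (h : vec3 x z ≠ 0) :
    ev C i0 (vec3 x z) ∈ U ∨ ev C i0 (vec3 x z) ∈ V := by
  obtain ⟨b', hb'⟩ := ActBy.pow C i0 hM hg 6
  rw [h6] at hb'
  apply hp.periodic 12 (by norm_num)
  rw [show (12 : ℕ) = 6 + 6 by norm_num, pow_add]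
  show (g ^ 6) ((g ^ 6) _) = _
  have h1 : (1 : Matrix (Fin 2) (Fin 2) K).det = 1 := Matrix.det_one
  rw [hb' x z h, hb' _ z (aff_ne h1 b' h)]
  congr 2
  rw [Matrix.one_mulVec, Matrix.one_mulVec, add_assoc]
  funext i
  simp [add_self_K]

theorem low_add {n : ℤ} {x y : K} (hx : Low n x) (hy : Low n y) : Low n (x + y) := by
  intro k hk
  rw [HahnSeries.coeff_add, hx k hk, hy k hk, add_zero]

theorem low_zero (n : ℤ) : Low n (0 : K) := fun _ _ => rfl

theorem low_mono {m n : ℤ} (h : m ≤ n) {x : K} (hx : Low n x) : Low m x :=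
  fun k hk => hx k (lt_of_lt_of_le hk h)

theorem low_one : Low 0 (1 : K) := by
  intro k hk
  exact HahnSeries.coeff_single_of_ne (by omega)

theorem low_pow {x : K} (hx : Low 1 x) (n : ℕ) : Low n (x ^ n) := by
  induction n with
  | zero => simpa using low_one
  | succ n ih =>
    rw [pow_succ]
    have := ih.mul hx
    push_cast
    exact this

/-- A common lower bound for the orders of the entries. -/
theorem exists_low_vec (x : Fin 2 → K) : ∃ n, ∀ i, Low n (x i) := by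
  obtain ⟨n0, h0⟩ := exists_low (x 0)
  obtain ⟨n1, h1⟩ := exists_low (x 1)
  refine ⟨min n0 n1, fun i => ?_⟩
  fin_cases i
  · exact low_mono (min_le_left _ _) h0
  · exact low_mono (min_le_right _ _) h1

theorem line_aux {g : (ι × (ℕ → A)) ≃ₜ (ι × (ℕ → A))} {V : Set (ι × (ℕ → A))}
    (hV : IsOpen V) (hfwd : ∀ x n, x ∈ V → (g ^ n) x ∈ V) {c a : Fin 2 → K} {l : K} (hl : l ≠ 0)
    (hl1 : Low 1 l⁻¹)
    (hg : ∀ s : K, g (ev C i0 (vec3 (c + s • a) 1)) = ev C i0 (vec3 (c + (l * s) • a) 1))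
    (hc : ev C i0 (vec3 c 1) ∈ V) (s : K) : ev C i0 (vec3 (c + s • a) 1) ∈ V := by
  obtain ⟨n0, hn0⟩ := ev_near C i0 (vec3_ne_of_right (x := c) one_ne_zero) (hV.mem_nhds hc)
  obtain ⟨n1, hn1⟩ := exists_low_vec (s • a)
  have hpow : ∀ (n : ℕ) (s : K), (g ^ n) (ev C i0 (vec3 (c + s • a) 1))
      = ev C i0 (vec3 (c + (l ^ n * s) • a) 1) := by
    intro n
    induction n with
    | zero => intro s; simp
    | succ n ih =>
      intro s
      rw [pow_succ]
      show (g ^ n) (g _) = _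
      rw [hg, ih, pow_succ, mul_assoc]
  obtain ⟨m, hm⟩ : ∃ m : ℕ, n0 ≤ m + n1 := ⟨(n0 - n1).toNat, by omega⟩
  have hmem : ev C i0 (vec3 (c + ((l⁻¹) ^ m * s) • a) 1) ∈ V := by
    apply hn0
    have hlow : ∀ i, Low n0 (((l⁻¹) ^ m * s) * a i) := by
      intro i
      have := (low_pow hl1 m).mul (hn1 i)
      have h3 : (l⁻¹) ^ m * (s • a) i = ((l⁻¹) ^ m * s) * a i := by
        simp [mul_assoc]
      rw [h3] at this
      exact low_mono hm this
    intro i
    fin_cases i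
    · simpa [vec3] using hlow 0
    · simpa [vec3] using hlow 1
    · simpa [vec3] using low_zero n0
  have := hfwd _ m hmem
  rw [hpow] at this
  have h4 : l ^ m * ((l⁻¹) ^ m * s) = s := by
    rw [← mul_assoc, ← mul_pow, mul_inv_cancel₀ hl, one_pow, one_mul]
  rwa [h4] at this

/-- Eigen-directions lie in one of the two sets of a player (recurrence). -/
theorem direction_mem {g : (ι × (ℕ → A)) ≃ₜ (ι × (ℕ → A))} {M : Matrix (Fin 2) (Fin 2) K}
    {b : Fin 2 → K} (hg : ActBy C i0 g M b)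
    {U V : Set (ι × (ℕ → A))} (hp : PP g U V) {a : Fin 2 → K} (ha : a ≠ 0) {l : K} (hl : l ≠ 0)
    (hMa : M.mulVec a = l • a) :
    ev C i0 (vec3 a 0) ∈ U ∨ ev C i0 (vec3 a 0) ∈ V := by
  by_contra hcon
  push Not at hcon
  obtain ⟨hU, hV⟩ := hcon
  have hact : ∀ s : K, s ≠ 0 → g (ev C i0 (vec3 (s • a) 0)) = ev C i0 (vec3 ((l * s) • a) 0) := by
    intro s hs
    rw [hg _ _ (vec3_ne_of_left (smul_ne_zero hs ha)), Matrix.mulVec_smul, hMa, zero_smul,
      add_zero, smul_smul, mul_comm s l]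
  have hinv : ∀ (n : ℕ) (s : K), s ≠ 0 → (g⁻¹ ^ n) (ev C i0 (vec3 (s • a) 0))
      = ev C i0 (vec3 (((l⁻¹) ^ n * s) • a) 0) := by
    intro n
    induction n with
    | zero => intro s _; simp
    | succ n ih =>
      intro s hs
      have h1 : g⁻¹ (ev C i0 (vec3 (s • a) 0)) = ev C i0 (vec3 ((l⁻¹ * s) • a) 0) := by
        have h2 := hact (l⁻¹ * s) (mul_ne_zero (inv_ne_zero hl) hs)
        rw [← mul_assoc, mul_inv_cancel₀ hl, one_mul] at h2
        rw [← h2]
        exact g.symm_apply_apply _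
      rw [pow_succ]
      show (g⁻¹ ^ n) (g⁻¹ _) = _
      rw [h1, ih _ (mul_ne_zero (inv_ne_zero hl) hs), pow_succ, mul_assoc]
  have hgp : g (ev C i0 (vec3 a 0)) = ev C i0 (vec3 (l • a) 0) := by
    have := hact 1 one_ne_zero
    simpa using this
  have hgV : ev C i0 (vec3 (l • a) 0) ∈ V := by rw [← hgp]; exact hp.map _ hU
  obtain ⟨n0, hn0⟩ := ev_near C i0 (vec3_ne_of_left (z := 0) (smul_ne_zero hl ha))
    (hp.openV.mem_nhds hgV)
  obtain ⟨n1, hn1⟩ := exists_low_vec (l • a)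
  obtain ⟨k, u, hu, hu1⟩ := exists_unit_form (inv_ne_zero hl)
  have hsingle : ∀ n : ℕ, (HahnSeries.single k (1 : ZMod 2) : K) ^ n
      = HahnSeries.single (n • k) (1 : ZMod 2) := by
    intro n
    rw [HahnSeries.single_pow, one_pow]
  obtain ⟨m, hm0, hm⟩ : ∃ m : ℕ, m ≠ 0 ∧ n0 ≤ 2 ^ m + n1 := by
    refine ⟨(n0 - n1).toNat + 1, by omega, ?_⟩
    have h1 : (n0 - n1).toNat + 1 < 2 ^ ((n0 - n1).toNat + 1) := Nat.lt_two_pow_self
    have h2 : (((n0 - n1).toNat + 1 : ℕ) : ℤ) < ((2 ^ ((n0 - n1).toNat + 1) : ℕ) : ℤ) := by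
      exact_mod_cast h1
    push_cast at h2
    omega
  have hmem : ev C i0 (vec3 ((u ^ (2 ^ m) * l) • a) 0) ∈ V := by
    apply hn0
    have hlow : ∀ i, Low n0 ((u ^ (2 ^ m) * l) * a i - l * a i) := by
      intro i
      have := (low_pow_sub_one hu1 m).mul (hn1 i)
      have h3 : (u ^ 2 ^ m - 1) * (l • a) i = (u ^ (2 ^ m) * l) * a i - l * a i := by
        simp only [Pi.smul_apply, smul_eq_mul]
        ring
      rw [h3] at this
      exact low_mono hm this
    intro i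
    fin_cases i
    · simpa [vec3] using hlow 0
    · simpa [vec3] using hlow 1
    · simpa [vec3] using low_zero n0
  have h5 : (g⁻¹ ^ (2 ^ m)) (ev C i0 (vec3 (l • a) 0))
      = ev C i0 (vec3 ((u ^ (2 ^ m) * l) • a) 0) := by
    rw [hinv _ _ hl, hu, mul_pow, hsingle]
    have : vec3 ((HahnSeries.single ((2 ^ m) • k) (1 : ZMod 2) * u ^ 2 ^ m * l : K) • a) 0
        = (HahnSeries.single ((2 ^ m) • k) (1 : ZMod 2) : K) • vec3 ((u ^ (2 ^ m) * l) • a) 0 := by
      funext i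
      fin_cases i <;> simp [vec3, mul_assoc]
    rw [this]
    simp only [ev, nrm_single_smul]
  have h6 : (g⁻¹ ^ (2 ^ m)) (ev C i0 (vec3 (l • a) 0)) ∈ U := by
    rw [← hgp]
    obtain ⟨q, hq⟩ : ∃ q, 2 ^ m = (q + 1) + 1 := by
      have : 2 ≤ 2 ^ m := by
        calc 2 = 2 ^ 1 := rfl
          _ ≤ 2 ^ m := Nat.pow_le_pow_right (by norm_num) (by omega)
      exact ⟨2 ^ m - 2, by omega⟩
    rw [hq, pow_succ]
    show (g⁻¹ ^ (q + 1)) (g⁻¹ (g _)) ∈ U
    have h7 : g⁻¹ (g (ev C i0 (vec3 a 0))) = ev C i0 (vec3 a 0) := g.symm_apply_apply _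
    rw [h7]
    exact hp.symm.map_pow hV (q + 1) (by omega)
  rw [h5] at h6
  exact hp.disj _ h6 hmem

/-- The conclusion for hyperbolic elements: a full line lies in one of the two sets. -/
theorem hyperbolic_case {g : (ι × (ℕ → A)) ≃ₜ (ι × (ℕ → A))} {M : Matrix (Fin 2) (Fin 2) K}
    {b : Fin 2 → K} (hg : ActBy C i0 g M b) (h1 : (M - 1).det ≠ 0)
    {l : K} {a r : Fin 2 → K} (hl : l ≠ 0) (hl1 : Low 1 l⁻¹) (ha : a ≠ 0) (hr : r ≠ 0)
    (hMa : M.mulVec a = l • a) (hMr : M.mulVec r = l⁻¹ • r)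
    {U V : Set (ι × (ℕ → A))} (hp : PP g U V) :
    ∃ (c d : Fin 2 → K) (m : K), d ≠ 0 ∧ m ≠ 0 ∧ M.mulVec d = m • d ∧
      ∀ s : K, ev C i0 (vec3 (c + s • d) 1) ∈ U ∨ ev C i0 (vec3 (c + s • d) 1) ∈ V := by
  have hu : IsUnit (M - 1).det := isUnit_iff_ne_zero.2 h1
  set c : Fin 2 → K := ((M - 1)⁻¹).mulVec (-b) with hc
  have hcc : M.mulVec c + b = c := by
    have : (M - 1).mulVec c = -b := by
      rw [hc, Matrix.mulVec_mulVec, Matrix.mul_nonsing_inv _ hu, Matrix.one_mulVec]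
    rw [Matrix.sub_mulVec, Matrix.one_mulVec, sub_eq_iff_eq_add] at this
    rw [this]
    abel
  have hact : ∀ y, g (ev C i0 (vec3 (c + y) 1)) = ev C i0 (vec3 (c + M.mulVec y) 1) := by
    intro y
    rw [hg _ _ (vec3_ne_of_right one_ne_zero), Matrix.mulVec_add, one_smul]
    congr 2
    calc M.mulVec c + M.mulVec y + b = (M.mulVec c + b) + M.mulVec y := by abel
      _ = _ := by rw [hcc]
  have hfix : g (ev C i0 (vec3 c 1)) = ev C i0 (vec3 c 1) := by
    have := hact 0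
    simpa using this
  rcases hp.fixed hfix with hU | hV
  · refine ⟨c, r, l⁻¹, hr, inv_ne_zero hl, hMr, fun s => Or.inl ?_⟩
    refine line_aux C i0 (g := g⁻¹) hp.openU (fun x n hx => hp.symm.fwd_pow hx n) hl hl1 ?_ hU s
    intro s
    have h2 := hact ((l * s) • r)
    rw [Matrix.mulVec_smul, hMr, smul_smul, mul_comm l s, mul_assoc, mul_inv_cancel₀ hl,
      mul_one] at h2
    rw [← h2, mul_comm l s]
    exact g.symm_apply_apply _
  · refine ⟨c, a, l, ha, hl, hMa, fun s => Or.inr ?_⟩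
    refine line_aux C i0 (g := g) hp.openV (fun x n hx => hp.fwd_pow hx n) hl hl1 ?_ hV s
    intro s
    rw [hact, Matrix.mulVec_smul, hMa, smul_smul, mul_comm s l]

/-- Two lines in the plane meet, or have a common direction. -/
theorem lines_meet (c c' d d' : Fin 2 → K) (hd : d ≠ 0) (hd' : d' ≠ 0) :
    (∃ s s' : K, c + s • d = c' + s' • d') ∨ ∃ m : K, m ≠ 0 ∧ d' = m • d := by
  by_cases h : d 0 * d' 1 - d 1 * d' 0 = 0
  · right
    by_cases h0 : d 0 = 0
    · have h1 : d 1 ≠ 0 := by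
        intro h1
        exact hd (by funext i; fin_cases i <;> simp [h0, h1])
      have h0' : d' 0 = 0 := by
        rw [h0, zero_mul, zero_sub, neg_eq_zero] at h
        rcases mul_eq_zero.1 h with h | h
        · exact absurd h h1
        · exact h
      refine ⟨d' 1 / d 1, ?_, ?_⟩
      · intro hz
        apply hd'
        rw [div_eq_zero_iff] at hz
        rcases hz with hz | hz
        · funext i; fin_cases i <;> simp [h0', hz]
        · exact absurd hz h1
      · funext i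
        fin_cases i
        · simp [h0, h0']
        · simp [h1]
    · refine ⟨d' 0 / d 0, ?_, ?_⟩
      · intro hz
        apply hd'
        rw [div_eq_zero_iff] at hz
        rcases hz with hz | hz
        · rw [hz, mul_zero, sub_zero] at h
          rcases mul_eq_zero.1 h with h | h
          · exact absurd h h0
          · funext i; fin_cases i <;> simp [h, hz]
        · exact absurd hz h0
      · funext i
        fin_cases i
        · simp [h0]
        · simp only [Fin.mk_one, Fin.isValue, Pi.smul_apply, smul_eq_mul]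
          field_simp
          linear_combination h
  · left
    set D := d 0 * d' 1 - d 1 * d' 0 with hD
    refine ⟨((c' 0 - c 0) * d' 1 - (c' 1 - c 1) * d' 0) / D,
      ((c' 0 - c 0) * d 1 - (c' 1 - c 1) * d 0) / D, ?_⟩
    funext i
    fin_cases i
    · simp only [Fin.zero_eta, Fin.isValue, Pi.add_apply, Pi.smul_apply, smul_eq_mul]
      field_simp
      rw [hD]
      ring
    · simp only [Fin.mk_one, Fin.isValue, Pi.add_apply, Pi.smul_apply, smul_eq_mul]
      field_simp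
      rw [hD]
      ring

theorem no_pingpong_B (H : Subgroup ((ι × (ℕ → A)) ≃ₜ (ι × (ℕ → A))))
    (hH : ∀ g ∈ H, Aff C i0 g) : ¬ HasPingPong H := by
  intro hpp
  obtain ⟨g, hg, k, hk, U₁, U₂, V₁, V₂, hp1, hp2, hdis⟩ := hpp.elim
  obtain ⟨M, b, hM, hP, hga⟩ := hH g hg
  obtain ⟨M', b', hM', hP', hka⟩ := hH k hk
  have hv : vec3 (0 : Fin 2 → K) 1 ≠ 0 := vec3_ne_of_right one_ne_zero
  rcases alg_dichotomy M hM hP with h6 | ⟨hd1, l, a, r, hl, hl1, ha, hr, hMa, hMr⟩
  · have hall : ∀ x z, vec3 x z ≠ 0 → ev C i0 (vec3 x z) ∈ U₁ ∨ ev C i0 (vec3 x z) ∈ V₁ :=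
      fun x z h => finite_case C i0 hM hga h6 hp1 h
    have h1 := hall 0 1 hv
    have h2 : ev C i0 (vec3 0 1) ∉ U₂ := fun h => hdis _ h1 (Or.inl h)
    have h3 := hp2.map _ h2
    rw [hka _ _ hv] at h3
    exact hdis _ (hall _ _ (aff_ne hM' b' hv)) (Or.inr h3)
  rcases alg_dichotomy M' hM' hP' with h6 | ⟨hd1', l', a', r', hl', hl1', ha', hr', hMa', hMr'⟩
  · have hall : ∀ x z, vec3 x z ≠ 0 → ev C i0 (vec3 x z) ∈ U₂ ∨ ev C i0 (vec3 x z) ∈ V₂ :=
      fun x z h => finite_case C i0 hM' hka h6 hp2 h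
    have h1 := hall 0 1 hv
    have h2 : ev C i0 (vec3 0 1) ∉ U₁ := fun h => hdis _ (Or.inl h) h1
    have h3 := hp1.map _ h2
    rw [hga _ _ hv] at h3
    exact hdis _ (Or.inr h3) (hall _ _ (aff_ne hM b hv))
  obtain ⟨c1, d1, m1, hd1n, hm1, hMd1, hl1⟩ :=
    hyperbolic_case C i0 hga hd1 hl hl1 ha hr hMa hMr hp1
  obtain ⟨c2, d2, m2, hd2n, hm2, hMd2, hl2⟩ :=
    hyperbolic_case C i0 hka hd1' hl' hl1' ha' hr' hMa' hMr' hp2
  rcases lines_meet c1 c2 d1 d2 hd1n hd2n with ⟨s, s', hs⟩ | ⟨m, hm, hmd⟩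
  · have := hl2 s'
    rw [← hs] at this
    exact hdis _ (hl1 s) this
  · have h1 := direction_mem C i0 hga hp1 hd1n hm1 hMd1
    have hMd1' : M'.mulVec d1 = m2 • d1 := by
      have h3 : d1 = m⁻¹ • d2 := by rw [hmd, smul_smul, inv_mul_cancel₀ hm, one_smul]
      rw [h3, Matrix.mulVec_smul, hMd2, smul_comm]
    have h2 := direction_mem C i0 hka hp2 hd1n hm2 hMd1'
    exact hdis _ h1 h2

end ping

end

end Pool.Agent.H380DT
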