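import Pool.Agent.H380DT.Defs

set_option autoImplicit false

namespace Pool.Agent.H380DT

open MeasureTheory Topology

section words

variable {A : Type*}

/-- The shift: drop the first `n` letters. -/
def sh (n : ℕ) (w : ℕ → A) : ℕ → A := fun i => w (n + i)

@[simp] theorem sh_apply (n : ℕ) (w : ℕ → A) (i : ℕ) : sh n w i = w (n + i) := rfl

@[simp] theorem sh_zero (w : ℕ → A) : sh 0 w = w := by
  funext i; simp [sh]

theorem sh_sh (m n : ℕ) (w : ℕ → A) : sh n (sh m w) = sh (m + n) w := by
  funext i; simp [sh, Nat.add_assoc]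

@[simp] theorem cons_zero (a : A) (w : ℕ → A) : cons a w 0 = a := rfl
@[simp] theorem cons_succ (a : A) (w : ℕ → A) (n : ℕ) : cons a w (n + 1) = w n := rfl

@[simp] theorem sh_one_cons (a : A) (w : ℕ → A) : sh 1 (cons a w) = w := by
  funext i; simp only [sh]; rw [Nat.add_comm]; rfl

theorem sh_succ_cons (n : ℕ) (a : A) (w : ℕ → A) : sh (n + 1) (cons a w) = sh n w := by
  funext i; simp only [sh]; rw [show n + 1 + i = (n + i) + 1 by omega]; rfl

theorem cons_sh (w : ℕ → A) : cons (w 0) (sh 1 w) = w := by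
  funext i
  cases i with
  | zero => rfl
  | succ n => simp [sh, Nat.add_comm]

@[simp] theorem app_nil (w : ℕ → A) : app [] w = w := rfl
@[simp] theorem app_cons (a : A) (l : List A) (w : ℕ → A) : app (a :: l) w = cons a (app l w) := rfl

theorem app_append (l m : List A) (w : ℕ → A) : app (l ++ m) w = app l (app m w) := by
  induction l with
  | nil => rfl
  | cons a l ih => simp [ih]

@[simp] theorem sh_app (l : List A) (w : ℕ → A) : sh l.length (app l w) = w := by
  induction l with
  | nil => simp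
  | cons a l ih => simp [sh_succ_cons, ih]

theorem app_apply_lt (l : List A) (w : ℕ → A) (i : ℕ) (h : i < l.length) :
    app l w i = l[i] := by
  induction l generalizing i with
  | nil => simp at h
  | cons a l ih =>
    cases i with
    | zero => rfl
    | succ n => simp only [app_cons, cons_succ, List.getElem_cons_succ]; exact ih n _

theorem app_apply_add (l : List A) (w : ℕ → A) (i : ℕ) :
    app l w (l.length + i) = w i := by
  have := congrFun (sh_app l w) i
  simpa [sh] using this

/-- The word formed by the first `n` letters. -/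
def pre (n : ℕ) (w : ℕ → A) : List A := List.ofFn (fun i : Fin n => w i)

@[simp] theorem length_pre (n : ℕ) (w : ℕ → A) : (pre n w).length = n := by simp [pre]

theorem pre_succ (n : ℕ) (w : ℕ → A) : pre (n + 1) w = w 0 :: pre n (sh 1 w) := by
  simp only [pre, List.ofFn_succ]
  simp [sh, Nat.add_comm]

theorem app_pre (n : ℕ) (w : ℕ → A) : app (pre n w) (sh n w) = w := by
  induction n generalizing w with
  | zero => simp [pre]
  | succ n ih =>
    rw [pre_succ, app_cons]
    have : sh (n + 1) w = sh n (sh 1 w) := by rw [sh_sh, Nat.add_comm]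
    rw [this, ih, cons_sh]

theorem pre_congr {n : ℕ} {w z : ℕ → A} (h : ∀ i < n, w i = z i) : pre n w = pre n z := by
  simp only [pre]
  congr 1
  funext i
  exact h i i.2

theorem eq_app_of_sh {n : ℕ} {w z : ℕ → A} (h : sh n w = z) : w = app (pre n w) z := by
  rw [← h, app_pre]

end words

section top

variable {A : Type*} [TopologicalSpace A]

theorem continuous_sh (n : ℕ) : Continuous (sh n : (ℕ → A) → (ℕ → A)) :=
  continuous_pi fun i => continuous_apply (n + i)

theorem continuous_cons (a : A) : Continuous (cons a : (ℕ → A) → (ℕ → A)) := by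
  refine continuous_pi fun i => ?_
  cases i with
  | zero => exact continuous_const
  | succ n => exact continuous_apply n

theorem continuous_app (l : List A) : Continuous (app l : (ℕ → A) → (ℕ → A)) := by
  induction l with
  | nil => exact continuous_id
  | cons a l ih => exact (continuous_cons a).comp ih

/-- A set given by agreement with `w` on the first `n` letters is a neighbourhood of `w`. -/
theorem eventually_agree [DiscreteTopology A] (w : ℕ → A) (n : ℕ) :
    ∀ᶠ z in 𝓝 w, ∀ i < n, z i = w i := by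
  have : ∀ i ∈ Finset.range n, ∀ᶠ z in 𝓝 w, z i = w i := by
    intro i _
    have hc : ContinuousAt (fun z : ℕ → A => z i) w := (continuous_apply i).continuousAt
    have : {w i} ∈ 𝓝 (w i) := by simp
    exact hc this
  have h2 := (Filter.eventually_all_finset (Finset.range n)).2 this
  filter_upwards [h2] with z hz i hi
  exact hz i (by simpa using hi)

/-- Neighbourhoods of `w` contain cylinders. -/
theorem exists_cylinder [DiscreteTopology A] {w : ℕ → A} {P : (ℕ → A) → Prop}
    (h : ∀ᶠ z in 𝓝 w, P z) : ∃ n, ∀ z, (∀ i < n, z i = w i) → P z := by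
  rw [Filter.eventually_iff, nhds_pi, Filter.mem_pi] at h
  obtain ⟨I, hI, t, ht, hsub⟩ := h
  obtain ⟨n, hn⟩ := hI.bddAbove
  refine ⟨n + 1, fun z hz => hsub ?_⟩
  intro i hi
  have := hz i (Nat.lt_succ_of_le (hn hi))
  show z i ∈ t i
  rw [this]
  exact mem_of_mem_nhds (ht i)

end top

section pingpong

variable {X : Type*} [TopologicalSpace X]

/-- One player of a ping-pong pair. -/
structure PP (g : X ≃ₜ X) (U V : Set X) : Prop where
  openU : IsOpen U
  openV : IsOpen V
  disj : ∀ x, x ∈ U → x ∈ V → False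
  map : ∀ x, x ∉ U → g x ∈ V

theorem PP.symm {g : X ≃ₜ X} {U V : Set X} (h : PP g U V) : PP g⁻¹ V U where
  openU := h.openV
  openV := h.openU
  disj := fun x hx hy => h.disj x hy hx
  map := by
    intro x hx
    by_contra hc
    exact hx (by simpa using h.map _ hc)

theorem PP.fwd {g : X ≃ₜ X} {U V : Set X} (h : PP g U V) {x : X} (hx : x ∈ V) : g x ∈ V :=
  h.map x fun hu => h.disj x hu hx

theorem PP.fwd_pow {g : X ≃ₜ X} {U V : Set X} (h : PP g U V) {x : X} (hx : x ∈ V) (n : ℕ) :
    (g ^ n) x ∈ V := by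
  induction n with
  | zero => simpa using hx
  | succ n ih =>
    rw [pow_succ']
    exact h.fwd ih

theorem PP.map_pow {g : X ≃ₜ X} {U V : Set X} (h : PP g U V) {x : X} (hx : x ∉ U) (n : ℕ)
    (hn : n ≠ 0) : (g ^ n) x ∈ V := by
  obtain ⟨m, rfl⟩ := Nat.exists_eq_succ_of_ne_zero hn
  rw [pow_succ]
  exact h.fwd_pow (h.map x hx) m

/-- Periodic points lie in one of the two sets. -/
theorem PP.periodic {g : X ≃ₜ X} {U V : Set X} (h : PP g U V) {x : X} (n : ℕ)
    (hn : n ≠ 0) (hx : (g ^ n) x = x) : x ∈ U ∨ x ∈ V := by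
  by_cases hu : x ∈ U
  · exact Or.inl hu
  · exact Or.inr (by simpa [hx] using h.map_pow hu n hn)

theorem PP.fixed {g : X ≃ₜ X} {U V : Set X} (h : PP g U V) {x : X} (hx : g x = x) :
    x ∈ U ∨ x ∈ V := h.periodic 1 one_ne_zero (by simpa using hx)

/-- The pairs of sets in a ping-pong pair. -/
theorem HasPingPong.elim {H : Subgroup (X ≃ₜ X)} (h : HasPingPong H) :
    ∃ g ∈ H, ∃ k ∈ H, ∃ U₁ U₂ V₁ V₂ : Set X, PP g U₁ V₁ ∧ PP k U₂ V₂ ∧
      ∀ x, (x ∈ U₁ ∨ x ∈ V₁) → (x ∈ U₂ ∨ x ∈ V₂) → False := by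
  obtain ⟨g, hg, k, hk, U₁, U₂, V₁, V₂, ⟨o1, o2, o3, o4⟩, ⟨d1, d2, d3, d4, d5, d6⟩, m1, m2⟩ := h
  refine ⟨g, hg, k, hk, U₁, U₂, V₁, V₂,
    ⟨o1, o3, fun x a b => Set.disjoint_left.1 d2 a b, fun x hx => m1 ⟨x, hx, rfl⟩⟩,
    ⟨o2, o4, fun x a b => Set.disjoint_left.1 d5 a b, fun x hx => m2 ⟨x, hx, rfl⟩⟩, ?_⟩
  rintro x (a | a) (b | b)
  · exact Set.disjoint_left.1 d1 a b
  · exact Set.disjoint_left.1 d3 a b
  · exact Set.disjoint_left.1 d4 b a
  · exact Set.disjoint_left.1 d6 a b

end pingpong

end Pool.Agent.H380DT
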