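import Pool.Agent.H380DT.Transfer

set_option autoImplicit false

namespace Pool.Agent.H380DT

open MeasureTheory Topology

/-- Probability measures invariant under one homeomorphism form a closed set. -/
theorem isClosed_inv {X : Type*} [TopologicalSpace X] [MeasurableSpace X] [BorelSpace X]
    [HasOuterApproxClosed X] (h : X ≃ₜ X) :
    IsClosed {μ : ProbabilityMeasure X |
      μ.map h.continuous.measurable.aemeasurable = μ} :=
  isClosed_eq (ProbabilityMeasure.continuous_map h.continuous) continuous_id

/-- A group with no invariant probability measure and no ping-pong pair on a compact metrizable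
space contains a finitely generated one. -/
theorem Bad.exists_fg {X : Type*} [TopologicalSpace X] [CompactSpace X]
    [TopologicalSpace.MetrizableSpace X] {H : Subgroup (X ≃ₜ X)} (hH : Bad H) :
    ∃ S : Finset (X ≃ₜ X), (S : Set (X ≃ₜ X)) ⊆ H ∧
      Bad (Subgroup.closure (S : Set (X ≃ₜ X))) := by
  classical
  by_contra hne
  let mX : MeasurableSpace X := borel X
  have bX : BorelSpace X := ⟨rfl⟩
  letI := TopologicalSpace.metrizableSpaceMetric X
  have key : ∀ S : Finset (X ≃ₜ X), (S : Set (X ≃ₜ X)) ⊆ H →
      ∃ μ : ProbabilityMeasure X, ∀ h ∈ S,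
        μ.map h.continuous.measurable.aemeasurable = μ := by
    intro S hS
    have hb : ¬ Bad (Subgroup.closure (S : Set (X ≃ₜ X))) := fun hb => hne ⟨S, hS, hb⟩
    have hle : Subgroup.closure (S : Set (X ≃ₜ X)) ≤ H := (Subgroup.closure_le _).2 hS
    have hnp : ¬ HasPingPong (Subgroup.closure (S : Set (X ≃ₜ X))) := by
      rintro ⟨g, hg, k, hk, r⟩
      exact hH.2 ⟨g, hle hg, k, hle hk, r⟩
    have : ∃ μ : Measure X, IsProbabilityMeasure μ ∧
        ∀ h ∈ Subgroup.closure (S : Set (X ≃ₜ X)), Measure.map (h : X → X) μ = μ := by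
      by_contra hno
      refine hb ⟨fun μ hμ hinv => hno ⟨μ, hμ, hinv⟩, hnp⟩
    obtain ⟨μ, hμ, hinv⟩ := this
    refine ⟨⟨μ, hμ⟩, fun h hh => ?_⟩
    apply Subtype.ext
    exact hinv h (Subgroup.subset_closure hh)
  have hcomp : (⋂ h : H, {μ : ProbabilityMeasure X |
      μ.map (h : X ≃ₜ X).continuous.measurable.aemeasurable = μ}).Nonempty := by
    have := (isCompact_univ : IsCompact (Set.univ : Set (ProbabilityMeasure X))).inter_iInter_nonempty
      (fun h : H => {μ : ProbabilityMeasure X |
        μ.map (h : X ≃ₜ X).continuous.measurable.aemeasurable = μ})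
      (fun h => isClosed_inv _) ?_
    · simpa using this
    · intro u
      obtain ⟨μ, hμ⟩ := key (u.image Subtype.val) (by
        intro x hx
        simp only [Finset.coe_image, Set.mem_image, Finset.mem_coe] at hx
        obtain ⟨y, -, rfl⟩ := hx
        exact y.2)
      refine ⟨μ, Set.mem_univ _, ?_⟩
      simp only [Set.mem_iInter, Set.mem_setOf_eq]
      intro h hh
      exact hμ _ (Finset.mem_image_of_mem _ hh)
  obtain ⟨μ, hμ⟩ := hcomp
  simp only [Set.mem_iInter, Set.mem_setOf_eq] at hμ
  refine hH.1 (μ : Measure X) inferInstance ?_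
  intro h hh
  have := hμ ⟨h, hh⟩
  exact congrArg Subtype.val this

end Pool.Agent.H380DT
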